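import Mathlib

open Set

namespace Pool.Agent.H389R2.Bs

/-- The closed square with index `i` of level `k` of the `R`-adic grid of the plane. -/
def Sq (R : ℕ) (k : ℕ) (i : ℤ × ℤ) : Set (ℝ × ℝ) :=
  Set.Icc ((i.1 : ℝ) * ((R : ℝ)⁻¹) ^ k, (i.2 : ℝ) * ((R : ℝ)⁻¹) ^ k)
    (((i.1 : ℝ) + 1) * ((R : ℝ)⁻¹) ^ k, ((i.2 : ℝ) + 1) * ((R : ℝ)⁻¹) ^ k)

lemma mem_Sq {R k : ℕ} {i : ℤ × ℤ} {z : ℝ × ℝ} :
    z ∈ Sq R k i ↔ ((i.1 : ℝ) * ((R : ℝ)⁻¹) ^ k ≤ z.1 ∧ z.1 ≤ ((i.1 : ℝ) + 1) * ((R : ℝ)⁻¹) ^ k) ∧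
      ((i.2 : ℝ) * ((R : ℝ)⁻¹) ^ k ≤ z.2 ∧ z.2 ≤ ((i.2 : ℝ) + 1) * ((R : ℝ)⁻¹) ^ k) := by
  unfold Sq
  rw [Set.mem_Icc, Prod.le_def, Prod.le_def]
  constructor
  · rintro ⟨⟨h1, h2⟩, h3, h4⟩
    exact ⟨⟨h1, h3⟩, h2, h4⟩
  · rintro ⟨⟨h1, h3⟩, h2, h4⟩
    exact ⟨⟨h1, h2⟩, h3, h4⟩

lemma Sq_nonempty {R k : ℕ} (i : ℤ × ℤ) : (Sq R k i).Nonempty := by
  have hr : 0 ≤ ((R : ℝ)⁻¹) ^ k := by positivity
  refine ⟨((i.1 : ℝ) * ((R : ℝ)⁻¹) ^ k, (i.2 : ℝ) * ((R : ℝ)⁻¹) ^ k), ?_⟩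
  rw [mem_Sq]
  refine ⟨⟨le_refl _, ?_⟩, le_refl _, ?_⟩ <;> simp only <;> nlinarith

/-- `j` is the index of a child of the square with index `i`. -/
def Child (R : ℕ) (i j : ℤ × ℤ) : Prop :=
  ((R : ℤ) * i.1 ≤ j.1 ∧ j.1 + 1 ≤ (R : ℤ) * i.1 + R) ∧
    ((R : ℤ) * i.2 ≤ j.2 ∧ j.2 + 1 ≤ (R : ℤ) * i.2 + R)

lemma Child.subset {R : ℕ} (hR : 0 < R) {i j : ℤ × ℤ} (h : Child R i j) (k : ℕ) :
    Sq R (k + 1) j ⊆ Sq R k i := by
  intro z hz
  rw [mem_Sq] at hz ⊢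
  obtain ⟨⟨h1, h2⟩, h3, h4⟩ := hz
  obtain ⟨⟨c1, c2⟩, c3, c4⟩ := h
  have hR' : (0 : ℝ) < R := by exact_mod_cast hR
  have hr : 0 < ((R : ℝ)⁻¹) ^ k := by positivity
  have hs : ((R : ℝ)⁻¹) ^ k = (R : ℝ) * ((R : ℝ)⁻¹) ^ (k + 1) := by
    rw [pow_succ]; field_simp
  have hr1 : 0 < ((R : ℝ)⁻¹) ^ (k + 1) := by positivity
  have d1 : (R : ℝ) * i.1 ≤ j.1 := by exact_mod_cast c1
  have d2 : (j.1 : ℝ) + 1 ≤ (R : ℝ) * i.1 + R := by exact_mod_cast c2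
  have d3 : (R : ℝ) * i.2 ≤ j.2 := by exact_mod_cast c3
  have d4 : (j.2 : ℝ) + 1 ≤ (R : ℝ) * i.2 + R := by exact_mod_cast c4
  set u := ((R : ℝ)⁻¹) ^ (k + 1) with hu
  rw [hs]
  refine ⟨⟨?_, ?_⟩, ?_, ?_⟩ <;> nlinarith

/-- Two indices are separated if they differ by at least two in some coordinate. -/
def Sep (i j : ℤ × ℤ) : Prop := 2 ≤ |i.1 - j.1| ∨ 2 ≤ |i.2 - j.2|

lemma Sep.dist_le {R : ℕ} (hR : 0 < R) {i j : ℤ × ℤ} (h : Sep i j) (k : ℕ) {z w : ℝ × ℝ}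
    (hz : z ∈ Sq R k i) (hw : w ∈ Sq R k j) : ((R : ℝ)⁻¹) ^ k ≤ dist z w := by
  rw [mem_Sq] at hz hw
  obtain ⟨⟨h1, h2⟩, h3, h4⟩ := hz
  obtain ⟨⟨g1, g2⟩, g3, g4⟩ := hw
  have hR' : (0 : ℝ) < R := by exact_mod_cast hR
  have hr : 0 < ((R : ℝ)⁻¹) ^ k := by positivity
  set u := ((R : ℝ)⁻¹) ^ k with hu
  rw [Prod.dist_eq]
  rcases h with h | h
  · refine le_trans ?_ (le_max_left _ _)
    rw [Real.dist_eq]
    rcases le_abs.1 h with h' | h'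
    · have : (2 : ℝ) ≤ (i.1 : ℝ) - j.1 := by exact_mod_cast h'
      refine le_trans ?_ (le_abs_self _)
      nlinarith
    · have : (2 : ℝ) ≤ -((i.1 : ℝ) - j.1) := by exact_mod_cast h'
      refine le_trans ?_ (neg_le_abs _)
      nlinarith
  · refine le_trans ?_ (le_max_right _ _)
    rw [Real.dist_eq]
    rcases le_abs.1 h with h' | h'
    · have : (2 : ℝ) ≤ (i.2 : ℝ) - j.2 := by exact_mod_cast h'
      refine le_trans ?_ (le_abs_self _)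
      nlinarith
    · have : (2 : ℝ) ≤ -((i.2 : ℝ) - j.2) := by exact_mod_cast h'
      refine le_trans ?_ (neg_le_abs _)
      nlinarith

section Tree

variable {R M : ℕ} {T : ℕ → ℤ × ℤ → Prop}

/-- The branching hypothesis: each node has `M` pairwise separated children. -/
def Branch (R M : ℕ) (T : ℕ → ℤ × ℤ → Prop) : Prop :=
  ∀ k i, T k i → ∃ c : Fin M → ℤ × ℤ, (∀ d, T (k + 1) (c d)) ∧ (∀ d, Child R i (c d)) ∧
    ∀ d d', d ≠ d' → Sep (c d) (c d')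

/-- The chosen children of a node. -/
noncomputable def ch (hb : Branch R M T) (k : ℕ) (x : {i : ℤ × ℤ // T k i}) (e : Fin M) :
    {i : ℤ × ℤ // T (k + 1) i} :=
  ⟨(hb k x.1 x.2).choose e, (hb k x.1 x.2).choose_spec.1 e⟩

lemma ch_child (hb : Branch R M T) (k : ℕ) (x : {i : ℤ × ℤ // T k i}) (e : Fin M) :
    Child R x.1 (ch hb k x e).1 := (hb k x.1 x.2).choose_spec.2.1 e

lemma ch_sep (hb : Branch R M T) (k : ℕ) (x : {i : ℤ × ℤ // T k i}) {e e' : Fin M} (h : e ≠ e') :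
    Sep (ch hb k x e).1 (ch hb k x e').1 := (hb k x.1 x.2).choose_spec.2.2 e e' h

/-- The node reached by following a sequence of choices. -/
noncomputable def node (h0 : T 0 (0, 0)) (hb : Branch R M T) (d : ℕ → Fin M) :
    (k : ℕ) → {i : ℤ × ℤ // T k i}
  | 0 => ⟨(0, 0), h0⟩
  | k + 1 => ch hb k (node h0 hb d k) (d k)

lemma node_succ (h0 : T 0 (0, 0)) (hb : Branch R M T) (d : ℕ → Fin M) (k : ℕ) :
    node h0 hb d (k + 1) = ch hb k (node h0 hb d k) (d k) := rfl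

lemma node_child (h0 : T 0 (0, 0)) (hb : Branch R M T) (d : ℕ → Fin M) (k : ℕ) :
    Child R (node h0 hb d k).1 (node h0 hb d (k + 1)).1 := ch_child hb k _ _

lemma node_congr (h0 : T 0 (0, 0)) (hb : Branch R M T) {d d' : ℕ → Fin M} {n : ℕ}
    (h : ∀ i < n, d i = d' i) : node h0 hb d n = node h0 hb d' n := by
  induction n with
  | zero => rfl
  | succ n ih =>
    have h1 := ih (fun i hi => h i (Nat.lt_succ_of_lt hi))
    have h2 := h n (Nat.lt_succ_self n)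
    rw [node_succ, node_succ, h1, h2]

lemma node_sep (h0 : T 0 (0, 0)) (hb : Branch R M T) {d d' : ℕ → Fin M} {n : ℕ}
    (h : ∀ i < n, d i = d' i) (hn : d n ≠ d' n) :
    Sep (node h0 hb d (n + 1)).1 (node h0 hb d' (n + 1)).1 := by
  have h1 := node_congr h0 hb h
  rw [node_succ, node_succ, ← h1]
  exact ch_sep hb n _ hn

lemma exists_point (hR : 0 < R) (h0 : T 0 (0, 0)) (hb : Branch R M T) (d : ℕ → Fin M) :
    ∃ z : ℝ × ℝ, ∀ k, z ∈ Sq R k (node h0 hb d k).1 := by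
  have := IsCompact.nonempty_iInter_of_sequence_nonempty_isCompact_isClosed
    (fun k => Sq R k (node h0 hb d k).1) (fun k => (node_child h0 hb d k).subset hR k)
    (fun k => Sq_nonempty _) isCompact_Icc (fun k => isClosed_Icc)
  obtain ⟨z, hz⟩ := this
  exact ⟨z, fun k => Set.mem_iInter.1 hz k⟩

theorem le_dimH_of_tree {δ : NNReal} (hδ : 0 < δ) (hR : 2 ≤ R) (hM : 2 ≤ M)
    (hMR : (R : ℝ) ^ (δ : ℝ) ≤ M) (h0 : T 0 (0, 0)) (hb : Branch R M T) {S : Set (ℝ × ℝ)}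
    (hS : ∀ z : ℝ × ℝ, (∃ n : ℕ → ℤ × ℤ, ∀ k, T k (n k) ∧ z ∈ Sq R k (n k)) → z ∈ S) :
    (δ : ENNReal) ≤ dimH S := by
  classical
  have hR0 : 0 < R := by omega
  have hRr : (0 : ℝ) < R := by exact_mod_cast hR0
  choose p hp using exists_point hR0 h0 hb
  -- separation
  have key : ∀ d d' : ℕ → Fin M, d ≠ d' → ∃ n : ℕ,
      |Real.ofDigits d - Real.ofDigits d'| ≤ ((M : ℝ) ^ n)⁻¹ ∧
      ((R : ℝ)⁻¹) ^ (n + 1) ≤ dist (p d) (p d') := by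
    intro d d' hdd
    have hex : ∃ n, d n ≠ d' n := Function.ne_iff.1 hdd
    refine ⟨Nat.find hex, Real.abs_ofDigits_sub_ofDigits_le (fun i hi => ?_), ?_⟩
    · have := Nat.find_min hex hi
      push Not at this
      exact this
    · refine (node_sep h0 hb (fun i hi => ?_) (Nat.find_spec hex)).dist_le hR0 _ (hp d _) (hp d' _)
      have := Nat.find_min hex hi
      push Not at this
      exact this
  have hinj : Function.Injective p := by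
    intro d d' h
    by_contra hne
    obtain ⟨n, -, h2⟩ := key d d' hne
    rw [h, dist_self] at h2
    have : 0 < ((R : ℝ)⁻¹) ^ (n + 1) := by positivity
    linarith
  have hMr : (0 : ℝ) < M := by exact_mod_cast (by omega : 0 < M)
  have hne : Nonempty (ℕ → Fin M) := ⟨fun _ => ⟨0, by omega⟩⟩
  set g : ℝ × ℝ → ℝ := fun z => Real.ofDigits (Function.invFun p z) with hg
  have hgp : ∀ d, g (p d) = Real.ofDigits d := by
    intro d
    simp only [hg]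
    rw [Function.leftInverse_invFun hinj d]
  have hbound : ∀ d d' : ℕ → Fin M,
      |Real.ofDigits d - Real.ofDigits d'| ≤ M * (dist (p d) (p d')) ^ (δ : ℝ) := by
    intro d d'
    by_cases hdd : d = d'
    · subst hdd
      simp only [sub_self, abs_zero]
      positivity
    · obtain ⟨n, h1, h2⟩ := key d d' hdd
      refine h1.trans ?_
      have h3 : (((R : ℝ)⁻¹) ^ (n + 1)) ^ (δ : ℝ) ≤ (dist (p d) (p d')) ^ (δ : ℝ) :=
        Real.rpow_le_rpow (by positivity) h2 (by positivity)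
      refine le_trans ?_ (mul_le_mul_of_nonneg_left h3 hMr.le)
      have h4 : (((R : ℝ)⁻¹) ^ (n + 1)) ^ (δ : ℝ) = (((R : ℝ) ^ (δ : ℝ)) ^ (n + 1))⁻¹ := by
        rw [inv_pow, Real.inv_rpow (by positivity), ← Real.rpow_natCast, ← Real.rpow_mul hRr.le,
          mul_comm, Real.rpow_mul hRr.le, Real.rpow_natCast]
      rw [h4]
      have h5 : ((R : ℝ) ^ (δ : ℝ)) ^ (n + 1) ≤ (M : ℝ) ^ (n + 1) :=
        pow_le_pow_left₀ (by positivity) hMR _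
      have h6 : ((M : ℝ) ^ (n + 1))⁻¹ ≤ (((R : ℝ) ^ (δ : ℝ)) ^ (n + 1))⁻¹ :=
        inv_anti₀ (by positivity) h5
      calc ((M : ℝ) ^ n)⁻¹ = M * ((M : ℝ) ^ (n + 1))⁻¹ := by
            rw [pow_succ]; field_simp
        _ ≤ _ := mul_le_mul_of_nonneg_left h6 hMr.le
  have hhold : HolderOnWith (M : NNReal) δ g (Set.range p) := by
    rintro _ ⟨d, rfl⟩ _ ⟨d', rfl⟩
    rw [hgp, hgp, edist_dist, edist_dist, Real.dist_eq]
    have h1 := hbound d d'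
    calc ENNReal.ofReal |Real.ofDigits d - Real.ofDigits d'|
        ≤ ENNReal.ofReal (M * (dist (p d) (p d')) ^ (δ : ℝ)) := ENNReal.ofReal_le_ofReal h1
      _ = ((M : NNReal) : ENNReal) * ENNReal.ofReal (dist (p d) (p d')) ^ (δ : ℝ) := by
          rw [ENNReal.ofReal_mul hMr.le, ENNReal.ofReal_rpow_of_nonneg dist_nonneg (by positivity)]
          congr 1
          simp
  have h1 : dimH (g '' Set.range p) ≤ dimH (Set.range p) / (δ : ENNReal) :=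
    hhold.dimH_image_le hδ
  have h2 : Set.Icc (0 : ℝ) 1 ⊆ g '' Set.range p := by
    intro t ht
    obtain ⟨d, -, hd⟩ := Real.ofDigits_SurjOn (b := M) (by omega) ht
    exact ⟨p d, ⟨d, rfl⟩, by rw [hgp, hd]⟩
  have h3 : dimH (Set.Icc (0 : ℝ) 1) = 1 := by
    have := Real.dimH_of_nonempty_interior (E := ℝ) (s := Set.Icc (0 : ℝ) 1)
      (by rw [interior_Icc]; exact ⟨1 / 2, by norm_num, by norm_num⟩)
    simpa using this
  have h4 : (1 : ENNReal) ≤ dimH (Set.range p) / (δ : ENNReal) := by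
    rw [← h3]; exact (dimH_mono h2).trans h1
  have h5 : Set.range p ⊆ S := by
    rintro _ ⟨d, rfl⟩
    exact hS _ ⟨fun k => (node h0 hb d k).1, fun k => ⟨(node h0 hb d k).2, hp d k⟩⟩
  refine le_trans ?_ (dimH_mono h5)
  have hδ0 : (δ : ENNReal) ≠ 0 := by exact_mod_cast hδ.ne'
  have := (ENNReal.le_div_iff_mul_le (Or.inl hδ0) (Or.inl ENNReal.coe_ne_top)).1 h4
  simpa using this

end Tree

end Pool.Agent.H389R2.Bs
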