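import Pool.Agent.H389R2.Bs.UniqueD

open Finset

namespace Pool.Agent.H389R2.Bs

variable {P N : ℕ}

/-- The candidate children: every second subsquare. -/
def kid (P : ℕ) (i : ℤ × ℤ) (x : ℕ × ℕ) : ℤ × ℤ :=
  (((2 * P : ℕ) : ℤ) * i.1 + 2 * x.1, ((2 * P : ℕ) : ℤ) * i.2 + 2 * x.2)

lemma kid_swap (i : ℤ × ℤ) (x : ℕ × ℕ) : (kid P i x).swap = kid P i.swap x.swap := rfl

/-- The set of positions of candidate children. -/
def pos (P : ℕ) : Finset (ℕ × ℕ) := range P ×ˢ range P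

lemma kid_child {i : ℤ × ℤ} {x : ℕ × ℕ} (hx : x ∈ pos P) : Child (2 * P) i (kid P i x) := by
  unfold pos at hx
  rw [mem_product, mem_range, mem_range] at hx
  obtain ⟨h1, h2⟩ := hx
  unfold Child kid
  push_cast
  refine ⟨⟨?_, ?_⟩, ?_, ?_⟩ <;> omega

lemma kid_sep {i : ℤ × ℤ} {x y : ℕ × ℕ} (hxy : x ≠ y) : Sep (kid P i x) (kid P i y) := by
  unfold Sep kid
  simp only
  by_cases h : x.1 = y.1
  · right
    have h2 : x.2 ≠ y.2 := fun h2 => hxy (Prod.ext h h2)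
    rw [le_abs]
    rcases Nat.lt_or_gt_of_ne h2 with h3 | h3
    · right; omega
    · left; omega
  · left
    rw [le_abs]
    rcases Nat.lt_or_gt_of_ne h with h3 | h3
    · right; omega
    · left; omega

lemma card_le_three {S : Finset (ℕ × ℕ)} {b : ℕ} (h : ∀ x ∈ S, x.2 = b)
    (hd : ∀ x ∈ S, ∀ y ∈ S, x.1 ≤ y.1 + 2) : S.card ≤ 3 := by
  rcases S.eq_empty_or_nonempty with rfl | hS
  · simp
  obtain ⟨y, hy, hmin⟩ := S.exists_min_image (fun x => x.1) hS
  have hsub : S ⊆ (Finset.Icc y.1 (y.1 + 2)).image (fun a => (a, b)) := by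
    intro x hx
    rw [mem_image]
    refine ⟨x.1, ?_, ?_⟩
    · rw [mem_Icc]; exact ⟨hmin x hx, hd x hx y hy⟩
    · exact Prod.ext rfl (h x hx).symm
  calc S.card ≤ ((Finset.Icc y.1 (y.1 + 2)).image (fun a => (a, b))).card := card_le_card hsub
    _ ≤ (Finset.Icc y.1 (y.1 + 2)).card := card_image_le
    _ = 3 := by rw [Nat.card_Icc]; omega

lemma strip_count (hP : 0 < P) {k : ℕ} {i : ℤ × ℤ} {w β γ : ℝ}
    (hw : w ≤ (((2 * P : ℕ) : ℝ)⁻¹) ^ (k + 1)) (hβ : |β| ≤ 1) {S : Finset (ℕ × ℕ)}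
    (hS : S ⊆ pos P)
    (h : ∀ x ∈ S, ∃ z ∈ Sq (2 * P) (k + 1) (kid P i x), |z.1 + β * z.2 + γ| ≤ w) :
    S.card ≤ 3 * P := by
  have hmap : ∀ x ∈ S, x.2 ∈ range P := fun x hx => (mem_product.1 (hS hx)).2
  rw [card_eq_sum_card_fiberwise hmap]
  have : ∀ b ∈ range P, (S.filter (fun x => x.2 = b)).card ≤ 3 := by
    intro b _
    refine card_le_three (fun x hx => (mem_filter.1 hx).2) ?_
    intro x hx y hy
    obtain ⟨hx1, hx2⟩ := mem_filter.1 hx
    obtain ⟨hy1, hy2⟩ := mem_filter.1 hy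
    obtain ⟨z, hz, hz'⟩ := h x hx1
    obtain ⟨t, ht, ht'⟩ := h y hy1
    rw [mem_Sq] at hz ht
    obtain ⟨⟨a1, a2⟩, a3, a4⟩ := hz
    obtain ⟨⟨b1, b2⟩, b3, b4⟩ := ht
    set u := (((2 * P : ℕ) : ℝ)⁻¹) ^ (k + 1) with hu
    have hu0 : 0 < u := by
      have : (0 : ℝ) < ((2 * P : ℕ) : ℝ) := by exact_mod_cast (by omega : 0 < 2 * P)
      positivity
    have hxy2 : ((kid P i x).2 : ℝ) = ((kid P i y).2 : ℝ) := by
      unfold kid; simp only [hx2, hy2]
    rw [hxy2] at a3 a4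
    have k1 : ((kid P i x).1 : ℝ) - ((kid P i y).1 : ℝ) = 2 * (x.1 : ℝ) - 2 * (y.1 : ℝ) := by
      unfold kid; push_cast; ring
    have d2 : |z.2 - t.2| ≤ u := by rw [abs_le]; constructor <;> nlinarith
    have d1 : |z.1 - t.1| ≤ 3 * u := by
      have e : z.1 - t.1 = (z.1 + β * z.2 + γ) - (t.1 + β * t.2 + γ) - β * (z.2 - t.2) := by ring
      rw [e]
      refine (abs_sub _ _).trans ?_
      have h1 := abs_sub (z.1 + β * z.2 + γ) (t.1 + β * t.2 + γ)
      have h2 : |β * (z.2 - t.2)| ≤ 1 * u := by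
        rw [abs_mul]; gcongr
      linarith
    have d3 := (abs_le.1 d1).2
    have : (x.1 : ℝ) ≤ y.1 + 2 := by
      by_contra hcon
      push Not at hcon
      have : ((kid P i x).1 : ℝ) * u - ((kid P i y).1 : ℝ) * u > 4 * u := by
        rw [← sub_mul, k1]; nlinarith
      nlinarith
    exact_mod_cast this
  calc ∑ b ∈ range P, (S.filter (fun x => x.2 = b)).card ≤ ∑ _b ∈ range P, 3 := sum_le_sum this
    _ = 3 * P := by rw [sum_const, card_range, smul_eq_mul, mul_comm]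

lemma sum_ind_eq_card {S : Finset (ℕ × ℕ)} (p : ℕ × ℕ → Prop) [DecidablePred p] :
    ∑ x ∈ S, ind (p x) = ((S.filter p).card : ℝ) := by
  classical
  rw [card_filter]
  push_cast
  refine sum_congr rfl fun x _ => ?_
  unfold ind
  by_cases h : p x <;> simp [h]

lemma countP (hP : 32 ≤ P) (hN : 8 ≤ N) {k : ℕ} {i : ℤ × ℤ} (h : Good (2 * P) N k i) {j l : ℕ}
    (hj : j ≤ k) : ∑ x ∈ pos P, ind (HitP (2 * P) N j l (k + 1) (kid P i x)) ≤
      3 * P * ind (HitP (2 * P) N j l k i) := by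
  classical
  have hR : 64 ≤ 2 * P := by omega
  have h0 := r_pos hR
  have h1 := r_lt_one hR
  have hsub : ∀ x ∈ pos P, Sq (2 * P) (k + 1) (kid P i x) ⊆ Sq (2 * P) k i := fun x hx =>
    (kid_child hx).subset (by omega) k
  by_cases hit : HitP (2 * P) N j l k i
  · rw [ind_of hit, mul_one, sum_ind_eq_card]
    have hkl := h.lt_of_hitP hR hj hit
    obtain ⟨q, p₁, p₂, hq, z, hz, hb⟩ := hit
    have hqr : (0 : ℝ) < q := by exact_mod_cast hq.1
    have := strip_count (P := P) (by omega) (k := k) (i := i) (w := (((2 * P : ℕ) : ℝ)⁻¹) ^ (j + 4 + l))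
      (β := 0) (γ := -(p₁ / q : ℝ)) ((pow_le_pow_r h0 h1).2 hkl) (by simp)
      (S := (pos P).filter (fun x => HitP (2 * P) N j l (k + 1) (kid P i x))) (filter_subset _ _) ?_
    · exact_mod_cast this
    · intro x hx
      obtain ⟨hx1, hx2⟩ := mem_filter.1 hx
      obtain ⟨q', p₁', p₂', hq', z', hz', hb'⟩ := hx2
      refine ⟨z', hz', ?_⟩
      have e := h.uniqP hR hN hj hq hq' hz (hsub x hx1 hz') hb hb'
      have hqr' : (0 : ℝ) < q' := by exact_mod_cast hq'.1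
      have e' : (q : ℝ) * p₁' = q' * p₁ := by exact_mod_cast e
      have e2 : (p₁ / q : ℝ) = p₁' / q' := by
        rw [div_eq_div_iff hqr.ne' hqr'.ne']; linarith
      have e3 : z'.1 + 0 * z'.2 + -(p₁ / q : ℝ) = (q' * z'.1 - p₁') / q' := by
        rw [e2]; field_simp; ring
      rw [e3, abs_div, abs_of_pos hqr', div_le_iff₀ hqr', mul_comm _ (q' : ℝ)]
      exact hb'.1
  · rw [ind_not hit, mul_zero]
    refine le_of_eq (sum_eq_zero fun x hx => ?_)
    refine ind_not fun hit' => hit ?_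
    obtain ⟨q, p₁, p₂, hq, z, hz, hb⟩ := hit'
    exact ⟨q, p₁, p₂, hq, z, hsub x hx hz, hb⟩

lemma countD (hP : 32 ≤ P) {k : ℕ} {i : ℤ × ℤ} (h : Good (2 * P) N k i) {j l : ℕ}
    (hj : j ≤ k) : ∑ x ∈ pos P, ind (HitD (2 * P) N j l (k + 1) (kid P i x)) ≤
      3 * P * ind (HitD (2 * P) N j l k i) := by
  classical
  have hR : 64 ≤ 2 * P := by omega
  have h0 := r_pos hR
  have h1 := r_lt_one hR
  have hsub : ∀ x ∈ pos P, Sq (2 * P) (k + 1) (kid P i x) ⊆ Sq (2 * P) k i := fun x hx =>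
    (kid_child hx).subset (by omega) k
  by_cases hit : HitD (2 * P) N j l k i
  · rw [ind_of hit, mul_one, sum_ind_eq_card]
    have hkl := h.lt_of_hitD hR hj hit
    obtain ⟨A, B, C, hq, z, hz, hb⟩ := hit
    have hAr : (0 : ℝ) < A := by exact_mod_cast hq.1
    have hBA : |(B : ℝ)| ≤ A := by exact_mod_cast hq.2.1
    have := strip_count (P := P) (by omega) (k := k) (i := i) (w := (((2 * P : ℕ) : ℝ)⁻¹) ^ (j + 4 + l))
      (β := B / A) (γ := C / A) ((pow_le_pow_r h0 h1).2 hkl)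
      (by rw [abs_div, abs_of_pos hAr, div_le_one hAr]; exact hBA)
      (S := (pos P).filter (fun x => HitD (2 * P) N j l (k + 1) (kid P i x))) (filter_subset _ _) ?_
    · exact_mod_cast this
    · intro x hx
      obtain ⟨hx1, hx2⟩ := mem_filter.1 hx
      obtain ⟨A', B', C', hq', z', hz', hb'⟩ := hx2
      refine ⟨z', hz', ?_⟩
      obtain ⟨e, f⟩ := h.uniqD hR hj hq hq' hz (hsub x hx1 hz') hb hb'
      have hAr' : (0 : ℝ) < A' := by exact_mod_cast hq'.1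
      have e' : (A : ℝ) * B' = A' * B := by exact_mod_cast e
      have f' : (A : ℝ) * C' = A' * C := by exact_mod_cast f
      have e2 : (B / A : ℝ) = B' / A' := by
        rw [div_eq_div_iff hAr.ne' hAr'.ne']; linarith
      have f2 : (C / A : ℝ) = C' / A' := by
        rw [div_eq_div_iff hAr.ne' hAr'.ne']; linarith
      have e3 : z'.1 + (B / A : ℝ) * z'.2 + (C / A : ℝ) = (A' * z'.1 + B' * z'.2 + C') / A' := by
        rw [e2, f2]; field_simp
      rw [e3, abs_div, abs_of_pos hAr', div_le_iff₀ hAr', mul_comm _ (A' : ℝ)]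
      exact hb'
  · rw [ind_not hit, mul_zero]
    refine le_of_eq (sum_eq_zero fun x hx => ?_)
    refine ind_not fun hit' => hit ?_
    obtain ⟨A, B, C, hq, z, hz, hb⟩ := hit'
    exact ⟨A, B, C, hq, z, hsub x hx hz, hb⟩

lemma sum_pos_swap (f : ℕ × ℕ → ℝ) : ∑ x ∈ pos P, f x.swap = ∑ x ∈ pos P, f x := by
  unfold pos
  rw [sum_product, sum_product_right]
  rfl

lemma count (hP : 32 ≤ P) (hN : 8 ≤ N) {k : ℕ} {i : ℤ × ℤ} (h : Good (2 * P) N k i) {j l : ℕ}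
    (hj : j ≤ k) : ∑ x ∈ pos P, cnt (2 * P) N j l (k + 1) (kid P i x) ≤
      3 * P * cnt (2 * P) N j l k i := by
  unfold cnt
  rw [sum_add_distrib, sum_add_distrib, sum_add_distrib]
  have h1 := countP hP hN h (l := l) hj
  have h2 := countD hP h (l := l) hj
  have h3 := countP hP hN h.swap (l := l) hj
  have h4 := countD hP h.swap (l := l) hj
  rw [← sum_pos_swap] at h3 h4
  simp only [← kid_swap] at h3 h4
  linarith

lemma geom_bound (n : ℕ) : ∑ l ∈ range n, (1 : ℝ) / 2 ^ l ≤ 2 := by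
  have h : ∀ n : ℕ, ∑ l ∈ range n, (1 : ℝ) / 2 ^ l = 2 - 2 / 2 ^ n := by
    intro n
    induction n with
    | zero => simp
    | succ n ih => rw [sum_range_succ, ih, pow_succ]; field_simp; ring
  rw [h]
  have : (0 : ℝ) < 2 / 2 ^ n := by positivity
  linarith

lemma new_bound (R k : ℕ) (i : ℤ × ℤ) :
    ∑ l ∈ range (k + 1 + 1), (2 : ℝ) ^ (k + 1) / 2 ^ (k + 1 + 4 + l) * cnt R N (k + 1) l (k + 1) i ≤
      1 / 2 := by
  have h1 : ∀ l ∈ range (k + 1 + 1),
      (2 : ℝ) ^ (k + 1) / 2 ^ (k + 1 + 4 + l) * cnt R N (k + 1) l (k + 1) i ≤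
        (1 / 4) * (1 / 2 ^ l) := by
    intro l _
    have hc := cnt_le_four R N (k + 1) l (k + 1) i
    have e : (2 : ℝ) ^ (k + 1) / 2 ^ (k + 1 + 4 + l) = (1 / 16) * (1 / 2 ^ l) := by
      rw [pow_add (2 : ℝ) (k + 1 + 4) l, pow_add (2 : ℝ) (k + 1) 4]; field_simp; norm_num
    rw [e]
    have : (0 : ℝ) < 1 / 2 ^ l := by positivity
    nlinarith
  calc _ ≤ ∑ l ∈ range (k + 1 + 1), (1 / 4) * ((1 : ℝ) / 2 ^ l) := sum_le_sum h1
    _ = (1 / 4) * ∑ l ∈ range (k + 1 + 1), (1 : ℝ) / 2 ^ l := by rw [mul_sum]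
    _ ≤ (1 / 4) * 2 := by gcongr; exact geom_bound _
    _ = 1 / 2 := by norm_num

/-- The part of the potential inherited from the parent. -/
noncomputable def oldPhi (R N k : ℕ) (c : ℤ × ℤ) : ℝ :=
  ∑ j ∈ range (k + 1), ∑ l ∈ range (j + 1), (2 : ℝ) ^ (k + 1) / 2 ^ (j + 4 + l) *
    cnt R N j l (k + 1) c

lemma oldPhi_nonneg (R N k : ℕ) (c : ℤ × ℤ) : 0 ≤ oldPhi R N k c :=
  sum_nonneg fun _ _ => sum_nonneg fun _ _ => mul_nonneg (by positivity) (cnt_nonneg _ _ _ _ _ _)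

lemma Phi_succ (R N k : ℕ) (c : ℤ × ℤ) : Phi R N (k + 1) c ≤ oldPhi R N k c + 1 / 2 := by
  unfold Phi
  rw [sum_range_succ]
  have := new_bound (N := N) R k c
  unfold oldPhi
  linarith

lemma sum_oldPhi (hP : 32 ≤ P) (hN : 8 ≤ N) {k : ℕ} {i : ℤ × ℤ} (h : Good (2 * P) N k i) :
    ∑ x ∈ pos P, oldPhi (2 * P) N k (kid P i x) ≤ 6 * P := by
  unfold oldPhi
  rw [sum_comm]
  have h1 : ∀ j ∈ range (k + 1), ∑ x ∈ pos P, ∑ l ∈ range (j + 1),
      (2 : ℝ) ^ (k + 1) / 2 ^ (j + 4 + l) * cnt (2 * P) N j l (k + 1) (kid P i x) ≤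
      6 * P * ∑ l ∈ range (j + 1), (2 : ℝ) ^ k / 2 ^ (j + 4 + l) * cnt (2 * P) N j l k i := by
    intro j hj
    rw [sum_comm, mul_sum]
    refine sum_le_sum fun l _ => ?_
    rw [← mul_sum]
    have h2 := count hP hN h (l := l) (Nat.le_of_lt_succ (mem_range.1 hj))
    have h3 : (0 : ℝ) < 2 ^ k / 2 ^ (j + 4 + l) := by positivity
    have e : (2 : ℝ) ^ (k + 1) / 2 ^ (j + 4 + l) = 2 * (2 ^ k / 2 ^ (j + 4 + l)) := by
      rw [pow_succ]; ring
    rw [e]
    calc 2 * ((2 : ℝ) ^ k / 2 ^ (j + 4 + l)) * ∑ x ∈ pos P, cnt (2 * P) N j l (k + 1) (kid P i x)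
        ≤ 2 * ((2 : ℝ) ^ k / 2 ^ (j + 4 + l)) * (3 * P * cnt (2 * P) N j l k i) := by gcongr
      _ = _ := by ring
  refine (sum_le_sum h1).trans ?_
  rw [← mul_sum]
  have h2 : Phi (2 * P) N k i < 1 := h
  unfold Phi at h2
  have hP0 : (0 : ℝ) < P := by exact_mod_cast (by omega : 0 < P)
  nlinarith

lemma card_bad (hP : 32 ≤ P) (hN : 8 ≤ N) {k : ℕ} {i : ℤ × ℤ} (h : Good (2 * P) N k i) :
    ∃ G : Finset (ℕ × ℕ), G ⊆ pos P ∧ (∀ x ∈ G, Good (2 * P) N (k + 1) (kid P i x)) ∧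
      P * P ≤ G.card + 12 * P := by
  classical
  refine ⟨(pos P).filter (fun x => Good (2 * P) N (k + 1) (kid P i x)), filter_subset _ _,
    fun x hx => (mem_filter.1 hx).2, ?_⟩
  have hcard : (pos P).card = P * P := by unfold pos; rw [card_product, card_range]
  have hsplit := card_filter_add_card_filter_not
    (s := pos P) (fun x => Good (2 * P) N (k + 1) (kid P i x))
  have hbad : ((((pos P).filter (fun x => ¬ Good (2 * P) N (k + 1) (kid P i x))).card : ℕ) : ℝ) ≤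
      12 * P := by
    have h1 : ∀ x ∈ (pos P).filter (fun x => ¬ Good (2 * P) N (k + 1) (kid P i x)),
        (1 / 2 : ℝ) ≤ oldPhi (2 * P) N k (kid P i x) := by
      intro x hx
      have hx2 := (mem_filter.1 hx).2
      unfold Good at hx2
      push Not at hx2
      have := Phi_succ (2 * P) N k (kid P i x)
      linarith
    have h2 := card_nsmul_le_sum _ _ _ h1
    have h3 : ∑ x ∈ (pos P).filter (fun x => ¬ Good (2 * P) N (k + 1) (kid P i x)),
        oldPhi (2 * P) N k (kid P i x) ≤ ∑ x ∈ pos P, oldPhi (2 * P) N k (kid P i x) :=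
      sum_le_sum_of_subset_of_nonneg (filter_subset _ _) (fun x _ _ => oldPhi_nonneg _ _ _ _)
    have h4 := sum_oldPhi hP hN h
    rw [nsmul_eq_mul] at h2
    linarith
  have hbad' : ((pos P).filter (fun x => ¬ Good (2 * P) N (k + 1) (kid P i x))).card ≤ 12 * P := by
    exact_mod_cast hbad
  omega

lemma good_root (R : ℕ) : Good R N 0 (0, 0) := by
  unfold Good Phi
  simp only [zero_add, range_one, sum_singleton]
  have := cnt_le_four R N 0 0 0 (0, 0)
  norm_num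
  linarith

lemma branch (hP : 32 ≤ P) (hN : 8 ≤ N) {M : ℕ} (hM : M + 12 * P ≤ P * P) :
    Branch (2 * P) M (Good (2 * P) N) := by
  intro k i h
  obtain ⟨G, hG1, hG2, hG3⟩ := card_bad hP hN h
  have hMG : M ≤ G.card := by omega
  obtain ⟨G', hG', hG'c⟩ := exists_subset_card_eq hMG
  have e : Fin M ≃ G' := (finCongr hG'c.symm).trans G'.equivFin.symm
  refine ⟨fun d => kid P i (e d).1, fun d => hG2 _ (hG' (e d).2), fun d => kid_child
    (hG1 (hG' (e d).2)), fun d d' hdd => kid_sep fun heq => hdd ?_⟩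
  exact e.injective (Subtype.ext heq)

end Pool.Agent.H389R2.Bs
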