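import Pool.Agent.H389R2.Bs.Count

open Finset Filter Topology

namespace Pool.Agent.H389R2.Bs

variable {P N : ℕ}

/-- Points lying in a nested sequence of good squares. -/
def Lim (R N : ℕ) (z : ℝ × ℝ) : Prop := ∃ n : ℕ → ℤ × ℤ, ∀ k, Good R N k (n k) ∧ z ∈ Sq R k (n k)

lemma Lim.swap {R N : ℕ} {z : ℝ × ℝ} (h : Lim R N z) : Lim R N z.swap := by
  obtain ⟨n, hn⟩ := h
  exact ⟨fun k => (n k).swap, fun k => ⟨(hn k).1.swap, mem_Sq_swap.2 (hn k).2⟩⟩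

lemma Lim.avoid {R N : ℕ} (hR : 64 ≤ R) {z : ℝ × ℝ} (h : Lim R N z) {q : ℕ} (hq : 1 ≤ q)
    (p₁ p₂ : ℤ) (l : ℕ)
    (hY : |q * z.2 - p₂| * √(q : ℝ) * ((R : ℝ)⁻¹) ^ (N * l) ≤ 1) :
    ((R : ℝ)⁻¹) ^ (tP N l + l + 5) < |q * z.1 - p₁| * √(q : ℝ) := by
  obtain ⟨n, hn⟩ := h
  have h0 := r_pos hR
  have h1 := r_lt_one hR
  have ht : Tendsto (fun k : ℕ => ((R : ℝ)⁻¹) ^ k * (q * √(q : ℝ))) atTop (𝓝 (0 * (q * √(q : ℝ)))) :=
    (tendsto_pow_atTop_nhds_zero_of_lt_one h0.le h1).mul_const _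
  rw [zero_mul] at ht
  have hE : (0 : ℝ) < ((R : ℝ)⁻¹) ^ (tP N l + l + 5) := by positivity
  obtain ⟨k, hk⟩ := (ht.eventually (gt_mem_nhds hE)).exists
  exact (hn k).1.avoidP hR (hn k).2 hq p₁ p₂ hk.le hY

/-- The key analytic estimate. -/
lemma bound {r : ℝ} (h0 : 0 < r) (h1 : r < 1) {s : ℝ} (hs0 : 0 < s) (hs1 : s < 1)
    (hN : 2 * s ≤ N * (1 - s)) {a b : ℝ} (ha : 0 ≤ a) (hab : a ≤ b)
    (h : ∀ l : ℕ, b * r ^ (N * l) ≤ 1 → r ^ (tP N l + l + 5) < a) (hN0 : 1 ≤ N) :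
    (r ^ (4 * N + 27)) ^ 2 * r ^ (N + 4) ≤ a ^ s * b ^ (2 - s) := by
  have hex : ∃ l : ℕ, b * r ^ (N * l) ≤ 1 := by
    have ht : Tendsto (fun l : ℕ => b * (r ^ N) ^ l) atTop (𝓝 (b * 0)) :=
      (tendsto_pow_atTop_nhds_zero_of_lt_one (by positivity)
        (pow_lt_one₀ h0.le h1 (by omega))).const_mul _
    rw [mul_zero] at ht
    obtain ⟨l, hl⟩ := (ht.eventually (gt_mem_nhds zero_lt_one)).exists
    exact ⟨l, by rw [pow_mul]; exact hl.le⟩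
  set c := r ^ (4 * N + 27) with hc
  have hc0 : 0 < c := by positivity
  have hc1 : c ≤ 1 := pow_le_one₀ h0.le h1.le
  have hd0 : 0 < r ^ (N + 4) := by positivity
  have hd1 : r ^ (N + 4) ≤ 1 := pow_le_one₀ h0.le h1.le
  classical
  obtain ⟨l, hl, hmin⟩ : ∃ l, b * r ^ (N * l) ≤ 1 ∧ ∀ m < l, ¬ (b * r ^ (N * m) ≤ 1) :=
    ⟨Nat.find hex, Nat.find_spec hex, fun m hm => Nat.find_min hex hm⟩
  have hal := h l hl
  have e : tP N l + l + 5 = (4 * N + 27) + (N + 4) * l := by unfold tP; ring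
  rw [e, pow_add, ← hc] at hal
  rcases Nat.eq_zero_or_pos l with rfl | hl0
  · rw [mul_zero, pow_zero, mul_one] at hal
    have g1 : c ^ s ≤ a ^ s := Real.rpow_le_rpow hc0.le hal.le hs0.le
    have g2 : c ^ (2 - s) ≤ b ^ (2 - s) := Real.rpow_le_rpow hc0.le (hal.le.trans hab) (by linarith)
    have g3 : c ^ s * c ^ (2 - s) = c ^ 2 := by
      rw [← Real.rpow_add hc0, ← Real.rpow_natCast]; congr 1; push_cast; ring
    calc c ^ 2 * r ^ (N + 4) ≤ c ^ 2 * 1 := by gcongr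
      _ = c ^ s * c ^ (2 - s) := by rw [mul_one, g3]
      _ ≤ a ^ s * b ^ (2 - s) := by gcongr
  · obtain ⟨m, rfl⟩ := Nat.exists_eq_succ_of_ne_zero hl0.ne'
    have hm := hmin m (Nat.lt_succ_self m)
    push Not at hm
    have hb : (r ^ (N * m))⁻¹ ≤ b := by
      rw [inv_le_iff_one_le_mul₀ (by positivity)]; exact hm.le
    have ha' : c * r ^ (N + 4) * r ^ ((N + 4) * m) ≤ a := by
      refine le_trans (le_of_eq ?_) hal.le
      rw [Nat.succ_eq_add_one, mul_add, pow_add]; ring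
    set d := c * r ^ (N + 4) with hd
    have hd0' : 0 < d := by positivity
    have hd1' : d ≤ 1 := by rw [hd]; nlinarith
    have g1 : (d * r ^ ((N + 4) * m)) ^ s ≤ a ^ s := Real.rpow_le_rpow (by positivity) ha' hs0.le
    have g2 : ((r ^ (N * m))⁻¹) ^ (2 - s) ≤ b ^ (2 - s) :=
      Real.rpow_le_rpow (by positivity) hb (by linarith)
    have g3 : d ≤ d ^ s := by
      calc d = d ^ (1 : ℝ) := (Real.rpow_one d).symm
        _ ≤ d ^ s := Real.rpow_le_rpow_of_exponent_ge hd0' hd1' hs1.le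
    have g4 : 1 ≤ (r ^ ((N + 4) * m)) ^ s * ((r ^ (N * m))⁻¹) ^ (2 - s) := by
      have e1 : (r ^ ((N + 4) * m)) ^ s = r ^ (((N + 4) * m : ℝ) * s) := by
        rw [← Real.rpow_natCast, ← Real.rpow_mul h0.le]; push_cast; rfl
      have e2 : ((r ^ (N * m))⁻¹) ^ (2 - s) = r ^ (-(((N : ℝ) * m) * (2 - s))) := by
        rw [Real.inv_rpow (by positivity), ← Real.rpow_natCast, ← Real.rpow_mul h0.le,
          ← Real.rpow_neg h0.le]
        push_cast; rfl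
      rw [e1, e2, ← Real.rpow_add h0]
      refine Real.one_le_rpow_of_pos_of_le_one_of_nonpos h0 h1.le ?_
      have : (0 : ℝ) ≤ m := Nat.cast_nonneg m
      nlinarith
    have hcd : c ^ 2 * r ^ (N + 4) ≤ d := by
      rw [hd]
      calc c ^ 2 * r ^ (N + 4) = c * (c * r ^ (N + 4)) := by ring
        _ ≤ 1 * (c * r ^ (N + 4)) := by gcongr
        _ = _ := one_mul _
    calc c ^ 2 * r ^ (N + 4) ≤ d * 1 := by rw [mul_one]; exact hcd
      _ ≤ d ^ s * ((r ^ ((N + 4) * m)) ^ s * ((r ^ (N * m))⁻¹) ^ (2 - s)) := by gcongr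
      _ = (d * r ^ ((N + 4) * m)) ^ s * ((r ^ (N * m))⁻¹) ^ (2 - s) := by
          rw [Real.mul_rpow hd0'.le (by positivity)]; ring
      _ ≤ a ^ s * b ^ (2 - s) := by gcongr

/-- Distance to the nearest integer. -/
noncomputable def dist0 (x : ℝ) : ℝ := |x - round x|

lemma Lim.final {R N : ℕ} (hR : 64 ≤ R) {z : ℝ × ℝ} (h : Lim R N z) (hN0 : 1 ≤ N)
    {s : ℝ} (hs0 : 0 < s) (hs1 : s < 1) (hN : 2 * s ≤ N * (1 - s)) {q : ℕ} (hq : 1 ≤ q) :
    (((R : ℝ)⁻¹) ^ (4 * N + 27)) ^ 2 * ((R : ℝ)⁻¹) ^ (N + 4) ≤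
      q * min (dist0 (q * z.1)) (dist0 (q * z.2)) ^ s *
        max (dist0 (q * z.1)) (dist0 (q * z.2)) ^ (2 - s) := by
  have h0 := r_pos hR
  have h1 := r_lt_one hR
  set a := min (dist0 (q * z.1)) (dist0 (q * z.2)) with ha
  set b := max (dist0 (q * z.1)) (dist0 (q * z.2)) with hb
  have hq' : (1 : ℝ) ≤ q := by exact_mod_cast hq
  have ha0 : 0 ≤ a := le_min (abs_nonneg _) (abs_nonneg _)
  have hab : a ≤ b := min_le_max
  have hb0 : 0 ≤ b := ha0.trans hab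
  set t := √(q : ℝ) with ht
  have ht0 : 0 < t := Real.sqrt_pos.2 (by linarith)
  have ht2 : t ^ 2 = q := Real.sq_sqrt (by linarith)
  have key : ∀ l : ℕ, (b * t) * ((R : ℝ)⁻¹) ^ (N * l) ≤ 1 →
      ((R : ℝ)⁻¹) ^ (tP N l + l + 5) < a * t := by
    intro l hl
    rcases le_total (dist0 (q * z.1)) (dist0 (q * z.2)) with hle | hle
    · rw [ha, min_eq_left hle]
      rw [hb, max_eq_right hle] at hl
      exact h.avoid hR hq _ _ l hl
    · rw [ha, min_eq_right hle]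
      rw [hb, max_eq_left hle] at hl
      exact h.swap.avoid hR hq _ _ l hl
  have := bound h0 h1 hs0 hs1 hN (mul_nonneg ha0 ht0.le)
    (mul_le_mul_of_nonneg_right hab ht0.le) key hN0
  refine this.trans (le_of_eq ?_)
  rw [Real.mul_rpow ha0 ht0.le, Real.mul_rpow hb0 ht0.le]
  have e : t ^ s * t ^ (2 - s) = q := by
    rw [← Real.rpow_add ht0, ← ht2, ← Real.rpow_natCast]; congr 1; push_cast; ring
  calc a ^ s * t ^ s * (b ^ (2 - s) * t ^ (2 - s)) = (t ^ s * t ^ (2 - s)) * a ^ s * b ^ (2 - s) := by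
        ring
    _ = _ := by rw [e]

/-- The set `B_s` in the plane with the product structure. -/
def BsProd (s : ℝ) : Set (ℝ × ℝ) :=
  {z | 0 < ⨅ n : ℕ+, ((n : ℕ) : ℝ) * min (dist0 ((n : ℕ) * z.1)) (dist0 ((n : ℕ) * z.2)) ^ s *
    max (dist0 ((n : ℕ) * z.1)) (dist0 ((n : ℕ) * z.2)) ^ (2 - s)}

lemma exists_P {δ : ℝ} (hδ : δ < 2) : ∃ P : ℕ, 32 ≤ P ∧ ((2 * P : ℕ) : ℝ) ^ δ ≤ ((P * P - 12 * P : ℕ) : ℝ) := by
  -- `(2P)^δ ≤ P^2/2` for large `P`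
  have h1 : Tendsto (fun P : ℕ => ((2 * P : ℕ) : ℝ) ^ (2 - δ)) atTop atTop := by
    refine (tendsto_rpow_atTop (by linarith)).comp ?_
    refine tendsto_natCast_atTop_atTop.comp ?_
    exact tendsto_id.const_mul_atTop' (by norm_num)
  obtain ⟨P, hP1, hP2⟩ := ((h1.eventually_ge_atTop 8).and (eventually_ge_atTop 32)).exists
  refine ⟨P, hP2, ?_⟩
  have hPr : (32 : ℝ) ≤ P := by exact_mod_cast hP2
  have e1 : ((P * P - 12 * P : ℕ) : ℝ) = (P : ℝ) * P - 12 * P := by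
    rw [Nat.cast_sub (by nlinarith)]; push_cast; ring
  have hpos : (0 : ℝ) < ((2 * P : ℕ) : ℝ) := by push_cast; linarith
  have e2 : ((2 * P : ℕ) : ℝ) ^ δ * ((2 * P : ℕ) : ℝ) ^ (2 - δ) = 4 * (P : ℝ) * P := by
    rw [← Real.rpow_add hpos]
    have : δ + (2 - δ) = ((2 : ℕ) : ℝ) := by push_cast; ring
    rw [this, Real.rpow_natCast]; push_cast; ring
  have h3 : 0 < ((2 * P : ℕ) : ℝ) ^ δ := Real.rpow_pos_of_pos hpos _
  rw [e1]
  nlinarith

theorem dimH_BsProd {s : ℝ} (hs0 : 0 < s) (hs1 : s < 1) : 2 ≤ dimH (BsProd s) := by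
  obtain ⟨N', hN'⟩ := exists_nat_ge (2 * s / (1 - s))
  set N := N' + 8 with hNdef
  have hN8 : 8 ≤ N := by omega
  have hN : 2 * s ≤ N * (1 - s) := by
    have h1 : 2 * s / (1 - s) ≤ N := by
      refine hN'.trans ?_
      exact_mod_cast (by omega : N' ≤ N)
    rwa [div_le_iff₀ (by linarith)] at h1
  refine le_of_forall_lt fun c hc => ?_
  obtain ⟨δ, hδ1, hδ2⟩ := ENNReal.lt_iff_exists_nnreal_btwn.1 hc
  refine lt_of_lt_of_le hδ1 ?_
  have hδ2' : (δ : ℝ) < 2 := by exact_mod_cast hδ2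
  have hδ0 : 0 < δ := by
    have : (0 : ENNReal) < δ := lt_of_le_of_lt bot_le hδ1
    exact_mod_cast this
  obtain ⟨P, hP, hPδ⟩ := exists_P hδ2'
  have hR : 64 ≤ 2 * P := by omega
  have hle : 12 * P ≤ P * P := by nlinarith
  have hM : P * P - 12 * P + 12 * P ≤ P * P := by omega
  have hM2 : 2 ≤ P * P - 12 * P := by
    have : 12 * P + 2 ≤ P * P := by nlinarith
    omega
  refine le_dimH_of_tree hδ0 (R := 2 * P) (M := P * P - 12 * P) (by omega) hM2 hPδ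
    (good_root (N := N) (2 * P)) (branch hP hN8 hM) ?_
  intro z hz
  have hlim : Lim (2 * P) N z := hz
  have h0 := r_pos hR
  refine lt_of_lt_of_le (b := (((2 * P : ℕ) : ℝ)⁻¹ ^ (4 * N + 27)) ^ 2 *
    (((2 * P : ℕ) : ℝ)⁻¹) ^ (N + 4)) (by positivity) ?_
  refine le_ciInf fun n => ?_
  exact hlim.final hR (by omega) hs0 hs1 hN n.pos

end Pool.Agent.H389R2.Bs
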