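import Pool.Agent.H389R2.Bs.UniqueP

open Finset

namespace Pool.Agent.H389R2.Bs

variable {R N : ℕ}

/-- Estimates for the intersection of two lines. Here `θ` is the processing scale, `Γ = r^{2Nl}`,
`G = r^{2N(l+1)}`. -/
lemma uniqD_core {u θ Γ G A A' B B' ℓ ℓ' b b' : ℝ} (hu : 0 < u) (hθ : 0 < θ) (hΓ : 0 < Γ)
    (hG : 0 < G) (hA : 1 ≤ A) (hA' : 1 ≤ A') (hb1 : 1 ≤ b) (hb1' : 1 ≤ b')
    (hB : |B| ≤ b) (hB' : |B'| ≤ b')
    (hb : b ≤ A * Γ) (hb' : b' ≤ A' * Γ) (h1 : u * (A ^ 2 * b) ≤ θ) (h1' : u * (A' ^ 2 * b') ≤ θ)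
    (h2 : A * G ≤ b) (h2' : A' * G ≤ b') (hℓ : |ℓ| ≤ A * u) (hℓ' : |ℓ'| ≤ 3 * (A' * u)) {D : ℝ}
    (hD : D = A * b' + A' * b) :
    (|A * B' - A' * B| ≤ D ∧ |B' * ℓ - B * ℓ'| ≤ 3 * u * D ∧ |A * ℓ' - A' * ℓ| ≤ 4 * (A * A') * u) ∧
    (u ^ 2 * D ^ 3 * G ^ 2 ≤ 8 * θ ^ 2 * Γ ^ 3) ∧
    ((4 * (A * A') * u) ^ 2 * D * Γ * G ^ 2 ≤ 32 * θ ^ 2 * Γ ^ 2) ∧
    (4 * (A * A') * u ≤ 4 * θ) := by
  have hA0 : 0 < A := by linarith
  have hA0' : 0 < A' := by linarith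
  have hb0 : 0 < b := by linarith
  have hb0' : 0 < b' := by linarith
  have hD0 : 0 < D := by rw [hD]; positivity
  have hDle : D ≤ 2 * (A * A') * Γ := by
    rw [hD]
    have g1 : A * b' ≤ A * (A' * Γ) := by gcongr
    have g2 : A' * b ≤ A' * (A * Γ) := by gcongr
    linarith
  have k1 : u * A ^ 3 * G ≤ θ := by
    calc u * A ^ 3 * G = u * (A ^ 2 * (A * G)) := by ring
      _ ≤ u * (A ^ 2 * b) := by gcongr
      _ ≤ θ := h1
  have k1' : u * A' ^ 3 * G ≤ θ := by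
    calc u * A' ^ 3 * G = u * (A' ^ 2 * (A' * G)) := by ring
      _ ≤ u * (A' ^ 2 * b') := by gcongr
      _ ≤ θ := h1'
  have k2 : u ^ 2 * (A * A') ^ 3 * G ^ 2 ≤ θ ^ 2 := by
    calc u ^ 2 * (A * A') ^ 3 * G ^ 2 = (u * A ^ 3 * G) * (u * A' ^ 3 * G) := by ring
      _ ≤ θ * θ := by gcongr
      _ = θ ^ 2 := by ring
  have k3 : A * A' * u ≤ θ := by
    have g1 : u * A ^ 2 ≤ θ := by
      calc u * A ^ 2 = u * (A ^ 2 * 1) := by ring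
        _ ≤ u * (A ^ 2 * b) := by gcongr
        _ ≤ θ := h1
    have g2 : u * A' ^ 2 ≤ θ := by
      calc u * A' ^ 2 = u * (A' ^ 2 * 1) := by ring
        _ ≤ u * (A' ^ 2 * b') := by gcongr
        _ ≤ θ := h1'
    nlinarith [sq_nonneg (A - A')]
  refine ⟨⟨?_, ?_, ?_⟩, ?_, ?_, ?_⟩
  · calc |A * B' - A' * B| ≤ |A * B'| + |A' * B| := abs_sub _ _
      _ = A * |B'| + A' * |B| := by rw [abs_mul, abs_mul, abs_of_pos hA0, abs_of_pos hA0']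
      _ ≤ A * b' + A' * b := by gcongr
      _ = D := hD.symm
  · calc |B' * ℓ - B * ℓ'| ≤ |B' * ℓ| + |B * ℓ'| := abs_sub _ _
      _ = |B'| * |ℓ| + |B| * |ℓ'| := by rw [abs_mul, abs_mul]
      _ ≤ b' * (A * u) + b * (3 * (A' * u)) := by gcongr
      _ ≤ 3 * u * D := by
        rw [hD]
        have : 0 < A * b' * u := by positivity
        nlinarith
  · calc |A * ℓ' - A' * ℓ| ≤ |A * ℓ'| + |A' * ℓ| := abs_sub _ _
      _ = A * |ℓ'| + A' * |ℓ| := by rw [abs_mul, abs_mul, abs_of_pos hA0, abs_of_pos hA0']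
      _ ≤ A * (3 * (A' * u)) + A' * (A * u) := by gcongr
      _ = _ := by ring
  · calc u ^ 2 * D ^ 3 * G ^ 2 ≤ u ^ 2 * (2 * (A * A') * Γ) ^ 3 * G ^ 2 := by gcongr
      _ = 8 * (u ^ 2 * (A * A') ^ 3 * G ^ 2) * Γ ^ 3 := by ring
      _ ≤ 8 * θ ^ 2 * Γ ^ 3 := by gcongr
  · calc (4 * (A * A') * u) ^ 2 * D * Γ * G ^ 2
        ≤ (4 * (A * A') * u) ^ 2 * (2 * (A * A') * Γ) * Γ * G ^ 2 := by gcongr
      _ = 32 * (u ^ 2 * (A * A') ^ 3 * G ^ 2) * Γ ^ 2 := by ring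
      _ ≤ 32 * θ ^ 2 * Γ ^ 2 := by gcongr
  · nlinarith

lemma Good.avoidP_int (hR : 64 ≤ R) {k : ℕ} {i : ℤ × ℤ} (h : Good R N k i) {z : ℝ × ℝ}
    (hz : z ∈ Sq R k i) {q : ℤ} (hq : q ≠ 0) (p₁ p₂ : ℤ) {l : ℕ}
    (hk : ((R : ℝ)⁻¹) ^ k * (|(q : ℝ)| * √|(q : ℝ)|) ≤ ((R : ℝ)⁻¹) ^ (tP N l + l + 5))
    (hY : |q * z.2 - p₂| * √|(q : ℝ)| * ((R : ℝ)⁻¹) ^ (N * l) ≤ 1) :
    ((R : ℝ)⁻¹) ^ (tP N l + l + 5) < |q * z.1 - p₁| * √|(q : ℝ)| := by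
  rcases lt_or_gt_of_ne hq with hq' | hq'
  · obtain ⟨n, hn⟩ := Int.eq_ofNat_of_zero_le (a := -q) (by omega)
    have e1 : |(q : ℝ)| = (n : ℝ) := by
      rw [abs_of_neg (by exact_mod_cast hq')]
      exact_mod_cast hn
    have e0 : (q : ℝ) = -(n : ℝ) := by
      have : ((-q : ℤ) : ℝ) = (n : ℝ) := by exact_mod_cast congrArg (Int.cast (R := ℝ)) hn
      push_cast at this; linarith
    have e2 : |(q : ℝ) * z.2 - p₂| = |(n : ℝ) * z.2 - ((-p₂ : ℤ) : ℝ)| := by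
      rw [← abs_neg, e0]; push_cast; congr 1; ring
    have e3 : |(q : ℝ) * z.1 - p₁| = |(n : ℝ) * z.1 - ((-p₁ : ℤ) : ℝ)| := by
      rw [← abs_neg, e0]; push_cast; congr 1; ring
    rw [e1] at hk
    rw [e1, e2] at hY
    rw [e1, e3]
    exact h.avoidP hR hz (by omega) _ _ hk hY
  · obtain ⟨n, hn⟩ := Int.eq_ofNat_of_zero_le (a := q) (by omega)
    have e0 : (q : ℝ) = (n : ℝ) := by exact_mod_cast congrArg (Int.cast (R := ℝ)) hn
    have e1 : |(q : ℝ)| = (n : ℝ) := by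
      rw [abs_of_pos (by exact_mod_cast hq'), e0]
    rw [e1] at hk
    rw [e1, e0] at hY
    rw [e1, e0]
    exact h.avoidP hR hz (by omega) _ _ hk hY

lemma expo1 (hR : 64 ≤ R) (l : ℕ) :
    72 * (((R : ℝ)⁻¹) ^ tD N l) ^ 2 * (((R : ℝ)⁻¹) ^ (2 * N * l)) ^ 3 ≤
      (((R : ℝ)⁻¹) ^ (tP N l + l + 5)) ^ 2 * (((R : ℝ)⁻¹) ^ (2 * N * (l + 1))) ^ 2 := by
  have h0 := r_pos hR
  have h1 := r_lt_one hR
  have h64 := r_lt hR
  set r := (R : ℝ)⁻¹ with hr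
  have e1 : (r ^ tD N l) ^ 2 * (r ^ (2 * N * l)) ^ 3 = r ^ (12 * N + 56 + 8 * l + 6 * N * l) := by
    rw [← pow_mul, ← pow_mul, ← pow_add]; congr 1; unfold tD; ring
  have e2 : (r ^ (tP N l + l + 5)) ^ 2 * (r ^ (2 * N * (l + 1))) ^ 2 =
      r ^ (12 * N + 54 + 8 * l + 6 * N * l) := by
    rw [← pow_mul, ← pow_mul, ← pow_add]; congr 1; unfold tP; ring
  rw [mul_assoc, e1, e2]
  have e3 : r ^ (12 * N + 56 + 8 * l + 6 * N * l) = r ^ (12 * N + 54 + 8 * l + 6 * N * l) * r ^ 2 := by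
    rw [← pow_add]; congr 1; ring
  rw [e3]
  have h2 : 72 * r ^ 2 ≤ 1 := by nlinarith
  have h3 : 0 < r ^ (12 * N + 54 + 8 * l + 6 * N * l) := by positivity
  nlinarith

lemma expo2 (hR : 64 ≤ R) (l : ℕ) :
    32 * (((R : ℝ)⁻¹) ^ tD N l) ^ 2 * (((R : ℝ)⁻¹) ^ (2 * N * l)) ^ 2 ≤
      (((R : ℝ)⁻¹) ^ (2 * N * (l + 1))) ^ 2 := by
  have h0 := r_pos hR
  have h1 := r_lt_one hR
  have h64 := r_lt hR
  set r := (R : ℝ)⁻¹ with hr
  have e1 : (r ^ tD N l) ^ 2 * (r ^ (2 * N * l)) ^ 2 = r ^ (4 * N * l + 4 * N + (8 * N + 55 + 8 * l)) * r := by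
    rw [← pow_mul, ← pow_mul, ← pow_add, ← pow_succ]; congr 1; unfold tD; ring
  have e2 : (r ^ (2 * N * (l + 1))) ^ 2 = r ^ (4 * N * l + 4 * N) := by
    rw [← pow_mul]; congr 1; ring
  rw [mul_assoc, e1, e2]
  have h3 : r ^ (4 * N * l + 4 * N + (8 * N + 55 + 8 * l)) ≤ r ^ (4 * N * l + 4 * N) :=
    (pow_le_pow_r h0 h1).2 (by omega)
  have h4 : 0 < r ^ (4 * N * l + 4 * N + (8 * N + 55 + 8 * l)) := by positivity
  nlinarith

lemma expo3 (hR : 64 ≤ R) (l : ℕ) : 4 * ((R : ℝ)⁻¹) ^ tD N l < 1 := by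
  have h0 := r_pos hR
  have h1 := r_lt_one hR
  have h64 := r_lt hR
  set r := (R : ℝ)⁻¹ with hr
  have : r ^ tD N l ≤ r ^ 1 := (pow_le_pow_r h0 h1).2 (by unfold tD; omega)
  rw [pow_one] at this
  linarith

lemma Good.uniqD (hR : 64 ≤ R) {k : ℕ} {i : ℤ × ℤ} (h : Good R N k i) {j l : ℕ}
    (hj : j ≤ k) {A B C A' B' C' : ℤ} {z z' : ℝ × ℝ}
    (hA : ClD ((R : ℝ)⁻¹) N j l A B) (hA' : ClD ((R : ℝ)⁻¹) N j l A' B')
    (hz : z ∈ Sq R k i) (hz' : z' ∈ Sq R k i)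
    (hb : BadD ((R : ℝ)⁻¹) j l A B C z) (hb' : BadD ((R : ℝ)⁻¹) j l A' B' C' z') :
    A * B' = A' * B ∧ A * C' = A' * C := by
  have h0 := r_pos hR
  have h1 := r_lt_one hR
  obtain ⟨hd1, hd2⟩ := abs_sub_le_of_mem hz hz'
  obtain ⟨g1, g2, g3, g4, g5, g6⟩ := hA
  obtain ⟨g1', g2', g3', g4', g5', g6'⟩ := hA'
  have E1 := expo1 (N := N) hR l
  have E2 := expo2 (N := N) hR l
  have E3 := expo3 (N := N) hR l
  have hA1 : (1 : ℝ) ≤ A := by exact_mod_cast g1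
  have hA1' : (1 : ℝ) ≤ A' := by exact_mod_cast g1'
  have hBA' : |(B' : ℝ)| ≤ A' := by exact_mod_cast g2'
  unfold BadD at hb hb'
  set r := (R : ℝ)⁻¹ with hr
  have hΓN : (r ^ (N * l)) ^ 2 = r ^ (2 * N * l) := by rw [← pow_mul]; congr 1; ring
  set E := r ^ (tP N l + l + 5) with hE
  set θ := r ^ tD N l with hθ
  set Γ := r ^ (2 * N * l) with hΓ
  set G := r ^ (2 * N * (l + 1)) with hG
  set u := r ^ j with hu
  have hu0 : 0 < u := by positivity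
  have hE0 : 0 < E := by positivity
  have hθ0 : 0 < θ := by positivity
  have hΓ0 : 0 < Γ := by positivity
  have hG0 : 0 < G := by positivity
  have hku : r ^ k ≤ u := (pow_le_pow_r h0 h1).2 hj
  have hju : r ^ (j + 4 + l) ≤ u := (pow_le_pow_r h0 h1).2 (by omega)
  have hℓ : |(A : ℝ) * z.1 + B * z.2 + C| ≤ A * u :=
    hb.trans (mul_le_mul_of_nonneg_left hju (by linarith))
  have hℓ' : |(A' : ℝ) * z.1 + B' * z.2 + C'| ≤ 3 * (A' * u) := by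
    have e : (A' : ℝ) * z.1 + B' * z.2 + C' =
        (A' * z'.1 + B' * z'.2 + C') + (A' * (z.1 - z'.1) + B' * (z.2 - z'.2)) := by ring
    rw [e]
    refine (abs_add_le _ _).trans ?_
    have t1 : |(A' : ℝ) * z'.1 + B' * z'.2 + C'| ≤ A' * u :=
      hb'.trans (mul_le_mul_of_nonneg_left hju (by linarith))
    have t2 : |(A' : ℝ) * (z.1 - z'.1) + B' * (z.2 - z'.2)| ≤ A' * u + A' * u := by
      refine (abs_add_le _ _).trans ?_
      rw [abs_mul, abs_mul, abs_of_pos (by linarith : (0 : ℝ) < A')]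
      have := hd1.trans hku
      have := hd2.trans hku
      gcongr
    linarith
  obtain ⟨⟨D1, D2, D3⟩, D4, D5, D6⟩ := uniqD_core hu0 hθ0 hΓ0 hG0 hA1 hA1' (bb_one_le B)
    (bb_one_le B') (abs_le_bb B) (abs_le_bb B') g3 g3' g5.le g5'.le g4.le g4'.le hℓ hℓ' rfl
  set D := (A : ℝ) * bb B' + A' * bb B with hD
  have hbB := bb_one_le B
  have hbB' := bb_one_le B'
  have hD1 : 1 ≤ D := by
    have t1 : (1 : ℝ) * 1 ≤ (A : ℝ) * bb B' := mul_le_mul hA1 hbB' zero_le_one (by linarith)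
    have t2 : (0 : ℝ) ≤ (A' : ℝ) * bb B := mul_nonneg (by linarith) (by linarith)
    rw [hD]; linarith
  set q : ℤ := A * B' - A' * B with hq
  set p₁ : ℤ := B * C' - B' * C with hp₁
  set p₂ : ℤ := A' * C - A * C' with hp₂
  have eq : (q : ℝ) = A * B' - A' * B := by rw [hq]; push_cast; ring
  have eX : (q : ℝ) * z.1 - p₁ = B' * (A * z.1 + B * z.2 + C) - B * (A' * z.1 + B' * z.2 + C') := by
    rw [eq, hp₁]; push_cast; ring
  have eY : (q : ℝ) * z.2 - p₂ = A * (A' * z.1 + B' * z.2 + C') - A' * (A * z.1 + B * z.2 + C) := by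
    rw [eq, hp₂]; push_cast; ring
  by_cases hq0 : q = 0
  · constructor
    · rw [hq] at hq0; linarith
    · have h2 : |(p₂ : ℝ)| < 1 := by
        have e : (p₂ : ℝ) = -((q : ℝ) * z.2 - p₂) := by rw [hq0]; push_cast; ring
        rw [e, abs_neg, eY]
        linarith
      have h3 : p₂ = 0 := by
        have : |p₂| < 1 := by exact_mod_cast h2
        exact Int.abs_lt_one_iff.1 this
      rw [hp₂] at h3; linarith
  · exfalso
    set s := √|(q : ℝ)| with hs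
    have hs2 : s ^ 2 = |(q : ℝ)| := Real.sq_sqrt (abs_nonneg _)
    have hs0 : 0 ≤ s := Real.sqrt_nonneg _
    have hqD : |(q : ℝ)| ≤ D := by rw [eq]; exact D1
    have hsq : |(q : ℝ)| ^ 3 ≤ D ^ 3 := by gcongr
    -- first condition
    have F1 : u ^ 2 * D ^ 3 * 9 ≤ E ^ 2 := by
      have hG2 : 0 < G ^ 2 := by positivity
      refine le_of_mul_le_mul_right ?_ hG2
      linarith
    have k1 : r ^ k * (|(q : ℝ)| * s) ≤ E := by
      have : (r ^ k * (|(q : ℝ)| * s)) ^ 2 ≤ E ^ 2 := by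
        calc (r ^ k * (|(q : ℝ)| * s)) ^ 2 = (r ^ k) ^ 2 * (|(q : ℝ)| ^ 2 * s ^ 2) := by ring
          _ = (r ^ k) ^ 2 * |(q : ℝ)| ^ 3 := by rw [hs2]; ring
          _ ≤ u ^ 2 * D ^ 3 := by gcongr
          _ ≤ E ^ 2 := by
            have : 0 < u ^ 2 * D ^ 3 := by positivity
            linarith
      exact (sq_le_sq₀ (by positivity) hE0.le).1 this
    have k2 : |(q : ℝ) * z.2 - p₂| * s * r ^ (N * l) ≤ 1 := by
      have : (|(q : ℝ) * z.2 - p₂| * s * r ^ (N * l)) ^ 2 ≤ 1 ^ 2 := by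
        have hG2 : 0 < G ^ 2 := by positivity
        refine le_of_mul_le_mul_right ?_ hG2
        calc (|(q : ℝ) * z.2 - p₂| * s * r ^ (N * l)) ^ 2 * G ^ 2
            = |(q : ℝ) * z.2 - p₂| ^ 2 * s ^ 2 * (r ^ (N * l)) ^ 2 * G ^ 2 := by ring
          _ = |(q : ℝ) * z.2 - p₂| ^ 2 * |(q : ℝ)| * Γ * G ^ 2 := by rw [hs2, hΓN]
          _ ≤ (4 * (A * A') * u) ^ 2 * D * Γ * G ^ 2 := by
              have := D3
              rw [← eY] at this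
              gcongr
          _ ≤ 32 * θ ^ 2 * Γ ^ 2 := D5
          _ ≤ 1 ^ 2 * G ^ 2 := by rw [one_pow, one_mul]; exact E2
      exact (sq_le_sq₀ (by positivity) zero_le_one).1 this
    have k3 := h.avoidP_int hR hz hq0 p₁ p₂ k1 k2
    have k4 : |(q : ℝ) * z.1 - p₁| * s ≤ E := by
      have : (|(q : ℝ) * z.1 - p₁| * s) ^ 2 ≤ E ^ 2 := by
        calc (|(q : ℝ) * z.1 - p₁| * s) ^ 2 = |(q : ℝ) * z.1 - p₁| ^ 2 * s ^ 2 := by ring
          _ = |(q : ℝ) * z.1 - p₁| ^ 2 * |(q : ℝ)| := by rw [hs2]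
          _ ≤ (3 * u * D) ^ 2 * D := by
              have := D2
              rw [← eX] at this
              gcongr
          _ = u ^ 2 * D ^ 3 * 9 := by ring
          _ ≤ E ^ 2 := F1
      exact (sq_le_sq₀ (by positivity) hE0.le).1 this
    exact absurd k4 (not_le.2 k3)

end Pool.Agent.H389R2.Bs
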