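import Pool.Agent.H389R2.Bs.Good

open Finset

namespace Pool.Agent.H389R2.Bs

variable {R N : ℕ}

lemma exists_shape (hR : 64 ≤ R) (hN : 1 ≤ N) {a b : ℝ} (hb : 1 ≤ b) (hab : b ≤ a) :
    ∃ l : ℕ, b ≤ a * ((R : ℝ)⁻¹) ^ (2 * N * l) ∧ a * ((R : ℝ)⁻¹) ^ (2 * N * (l + 1)) < b := by
  have hR1 : (1 : ℝ) < R := by exact_mod_cast (by omega : 1 < R)
  have hR0 : (0 : ℝ) < R := by linarith
  have hb0 : 0 < b := by linarith
  obtain ⟨n, h1, h2⟩ := exists_nat_pow_near (x := a / b) (y := (R : ℝ) ^ (2 * N))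
    (by rw [one_le_div hb0]; exact hab) (one_lt_pow₀ hR1 (by omega))
  refine ⟨n, ?_, ?_⟩
  · rw [← pow_mul, le_div_iff₀ hb0] at h1
    rw [inv_pow, ← div_eq_mul_inv, le_div_iff₀ (by positivity)]
    linarith
  · rw [← pow_mul, div_lt_iff₀ hb0] at h2
    rw [inv_pow, ← div_eq_mul_inv, div_lt_iff₀ (by positivity)]
    linarith

lemma uniqP_core {s s' u T Λ r X Y X' Y' : ℝ} (hs : 0 < s) (hs' : 0 < s') (hu : 0 < u)
    (hT : 0 < T) (hΛ : 0 < Λ) (hr : 0 < r)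
    (hX : |X| ≤ s ^ 2 * u) (hY : |Y| * s * Λ ≤ 1) (hX' : |X'| ≤ 2 * s' ^ 2 * u)
    (hY' : |Y'| * s' * Λ ≤ 2) (h3 : u * s ^ 3 ≤ T) (h3' : u * s' ^ 3 ≤ T)
    (h4 : r * T ≤ u * s ^ 3) (h4' : r * T ≤ u * s' ^ 3) {a b ℓ : ℝ}
    (ha : a = |s ^ 2 * Y' - s' ^ 2 * Y|) (hb : b = |s' ^ 2 * X - s ^ 2 * X'|)
    (hℓ : ℓ = |X * Y' - X' * Y|) :
    (a * b * ℓ * Λ ^ 2 ≤ 64 * T ^ 2 ∧ a ^ 2 * b * u * Λ ^ 2 ≤ 64 * T ^ 2) ∧
    (a ^ 2 * ℓ * Λ ^ 3 * r ^ 2 ≤ 64 * T ∧ a ^ 3 * u * Λ ^ 3 * r ^ 2 ≤ 64 * T) ∧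
    (b ^ 2 * ℓ * Λ ≤ 64 * T ^ 3 ∧ b ^ 3 * u ≤ 64 * T ^ 4) := by
  have hX0 := abs_nonneg X
  have hX0' := abs_nonneg X'
  have hY0 := abs_nonneg Y
  have hY0' := abs_nonneg Y'
  have ha0 : 0 ≤ a := by rw [ha]; positivity
  have hb0 : 0 ≤ b := by rw [hb]; positivity
  have hℓ0 : 0 ≤ ℓ := by rw [hℓ]; positivity
  set σ := s ^ 3 + s' ^ 3 with hσ
  set p := s * s' with hp
  have hp0 : 0 < p := by positivity
  have hσ0 : 0 < σ := by positivity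
  have o1 : a * (p * Λ) ≤ 2 * σ := by
    have h : a ≤ s ^ 2 * |Y'| + s' ^ 2 * |Y| := by
      rw [ha]
      refine (abs_sub _ _).trans ?_
      rw [abs_mul, abs_mul, abs_of_pos (by positivity : 0 < s ^ 2),
        abs_of_pos (by positivity : 0 < s' ^ 2)]
    calc a * (p * Λ) ≤ (s ^ 2 * |Y'| + s' ^ 2 * |Y|) * (p * Λ) := by gcongr
      _ = s ^ 3 * (|Y'| * s' * Λ) + s' ^ 3 * (|Y| * s * Λ) := by rw [hp]; ring
      _ ≤ s ^ 3 * 2 + s' ^ 3 * 1 := by gcongr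
      _ ≤ 2 * σ := by rw [hσ]; nlinarith [pow_pos hs' 3]
  have o2 : b ≤ 4 * p ^ 2 * u := by
    have h : b ≤ s' ^ 2 * |X| + s ^ 2 * |X'| := by
      rw [hb]
      refine (abs_sub _ _).trans ?_
      rw [abs_mul, abs_mul, abs_of_pos (by positivity : 0 < s ^ 2),
        abs_of_pos (by positivity : 0 < s' ^ 2)]
    calc b ≤ s' ^ 2 * |X| + s ^ 2 * |X'| := h
      _ ≤ s' ^ 2 * (s ^ 2 * u) + s ^ 2 * (2 * s' ^ 2 * u) := by gcongr
      _ = 3 * (p ^ 2 * u) := by rw [hp]; ring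
      _ ≤ 4 * p ^ 2 * u := by
        have : 0 < p ^ 2 * u := by positivity
        linarith
  have o3 : ℓ * (p * Λ) ≤ 2 * (u * σ) := by
    have h : ℓ ≤ |X| * |Y'| + |X'| * |Y| := by
      rw [hℓ]
      refine (abs_sub _ _).trans ?_
      rw [abs_mul, abs_mul]
    calc ℓ * (p * Λ) ≤ (|X| * |Y'| + |X'| * |Y|) * (p * Λ) := by gcongr
      _ = (|X| * s) * (|Y'| * s' * Λ) + (|X'| * s') * (|Y| * s * Λ) := by rw [hp]; ring
      _ ≤ ((s ^ 2 * u) * s) * 2 + ((2 * s' ^ 2 * u) * s') * 1 := by gcongr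
      _ = 2 * (u * σ) := by rw [hσ]; ring
  have c1 : u * σ ≤ 2 * T := by rw [hσ]; linarith
  have huσ0 : 0 < u * σ := by positivity
  have e1 : p ^ 3 * u ^ 2 = (u * s ^ 3) * (u * s' ^ 3) := by rw [hp]; ring
  have c2 : p ^ 3 * u ^ 2 ≤ T ^ 2 := by
    rw [e1, pow_two]; gcongr
  have c3 : r ^ 2 * T ^ 2 ≤ p ^ 3 * u ^ 2 := by
    rw [e1]
    calc r ^ 2 * T ^ 2 = (r * T) * (r * T) := by ring
      _ ≤ _ := by gcongr
  have cσ2 : (u * σ) ^ 2 ≤ 4 * T ^ 2 := by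
    calc (u * σ) ^ 2 ≤ (2 * T) ^ 2 := by gcongr
      _ = _ := by ring
  have cσ3 : (u * σ) ^ 3 ≤ 8 * T ^ 3 := by
    calc (u * σ) ^ 3 ≤ (2 * T) ^ 3 := by gcongr
      _ = _ := by ring
  refine ⟨⟨?_, ?_⟩, ⟨?_, ?_⟩, ?_, ?_⟩
  · have h : p ^ 2 * (a * b * ℓ * Λ ^ 2) ≤ p ^ 2 * (64 * T ^ 2) := by
      calc p ^ 2 * (a * b * ℓ * Λ ^ 2) = (a * (p * Λ)) * b * (ℓ * (p * Λ)) := by ring
        _ ≤ (2 * σ) * (4 * p ^ 2 * u) * (2 * (u * σ)) := by gcongr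
        _ = p ^ 2 * (16 * (u * σ) ^ 2) := by ring
        _ ≤ p ^ 2 * (16 * (4 * T ^ 2)) := by gcongr
        _ = _ := by ring
    exact le_of_mul_le_mul_left h (by positivity)
  · have h : p ^ 2 * (a ^ 2 * b * u * Λ ^ 2) ≤ p ^ 2 * (64 * T ^ 2) := by
      calc p ^ 2 * (a ^ 2 * b * u * Λ ^ 2) = (a * (p * Λ)) ^ 2 * b * u := by ring
        _ ≤ (2 * σ) ^ 2 * (4 * p ^ 2 * u) * u := by gcongr
        _ = p ^ 2 * (16 * (u * σ) ^ 2) := by ring
        _ ≤ p ^ 2 * (16 * (4 * T ^ 2)) := by gcongr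
        _ = _ := by ring
    exact le_of_mul_le_mul_left h (by positivity)
  · have h : T ^ 2 * (a ^ 2 * ℓ * Λ ^ 3 * r ^ 2) ≤ T ^ 2 * (64 * T) := by
      calc T ^ 2 * (a ^ 2 * ℓ * Λ ^ 3 * r ^ 2) = (a ^ 2 * ℓ * Λ ^ 3) * (r ^ 2 * T ^ 2) := by ring
        _ ≤ (a ^ 2 * ℓ * Λ ^ 3) * (p ^ 3 * u ^ 2) := by gcongr
        _ = ((a * (p * Λ)) ^ 2 * (ℓ * (p * Λ))) * u ^ 2 := by ring
        _ ≤ ((2 * σ) ^ 2 * (2 * (u * σ))) * u ^ 2 := by gcongr
        _ = 8 * (u * σ) ^ 3 := by ring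
        _ ≤ 8 * (8 * T ^ 3) := by gcongr
        _ = _ := by ring
    exact le_of_mul_le_mul_left h (by positivity)
  · have h : T ^ 2 * (a ^ 3 * u * Λ ^ 3 * r ^ 2) ≤ T ^ 2 * (64 * T) := by
      calc T ^ 2 * (a ^ 3 * u * Λ ^ 3 * r ^ 2) = (a ^ 3 * u * Λ ^ 3) * (r ^ 2 * T ^ 2) := by ring
        _ ≤ (a ^ 3 * u * Λ ^ 3) * (p ^ 3 * u ^ 2) := by gcongr
        _ = ((a * (p * Λ)) ^ 3 * u) * u ^ 2 := by ring
        _ ≤ ((2 * σ) ^ 3 * u) * u ^ 2 := by gcongr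
        _ = 8 * (u * σ) ^ 3 := by ring
        _ ≤ 8 * (8 * T ^ 3) := by gcongr
        _ = _ := by ring
    exact le_of_mul_le_mul_left h (by positivity)
  · have h : p * (b ^ 2 * ℓ * Λ) ≤ p * (64 * T ^ 3) := by
      calc p * (b ^ 2 * ℓ * Λ) = b ^ 2 * (ℓ * (p * Λ)) := by ring
        _ ≤ (4 * p ^ 2 * u) ^ 2 * (2 * (u * σ)) := by gcongr
        _ = p * (32 * (p ^ 3 * u ^ 2) * (u * σ)) := by ring
        _ ≤ p * (32 * T ^ 2 * (2 * T)) := by gcongr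
        _ = _ := by ring
    exact le_of_mul_le_mul_left h (by positivity)
  · calc b ^ 3 * u ≤ (4 * p ^ 2 * u) ^ 3 * u := by gcongr
      _ = 64 * (p ^ 3 * u ^ 2) ^ 2 := by ring
      _ ≤ 64 * (T ^ 2) ^ 2 := by gcongr
      _ = _ := by ring

lemma regime (hN : 8 ≤ N) (l m : ℕ) :
    (tD N m + m + 5) + 2 * (N * l) + 1 ≤ 2 * tP N l ∨
      (tD N m + m + 5) + 3 * (N * l) + 3 ≤ tP N l + 2 * N * m := by
  unfold tD tP
  obtain ⟨n, rfl⟩ := Nat.exists_eq_add_of_le hN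
  by_cases h : 5 * m ≤ 2 * (8 + n) + 10 + 6 * l
  · left
    nlinarith
  · right
    push Not at h
    nlinarith [Nat.mul_le_mul_left n h, Nat.mul_le_mul_left n (Nat.le_of_lt h)]

lemma Good.avoidD_abs (hR : 64 ≤ R) {k : ℕ} {i : ℤ × ℤ} (h : Good R N k i) {z : ℝ × ℝ}
    (hz : z ∈ Sq R k i) {A B : ℤ} (C : ℤ) (hA : A ≠ 0) (hB : |B| ≤ |A|) {l : ℕ}
    (hl : bb B ≤ |(A : ℝ)| * ((R : ℝ)⁻¹) ^ (2 * N * l))
    (hl' : |(A : ℝ)| * ((R : ℝ)⁻¹) ^ (2 * N * (l + 1)) < bb B)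
    (hk : ((R : ℝ)⁻¹) ^ k * (|(A : ℝ)| ^ 2 * bb B) ≤ ((R : ℝ)⁻¹) ^ (tD N l + l + 5)) :
    ((R : ℝ)⁻¹) ^ (tD N l + l + 5) < |(A : ℝ)| * bb B * |A * z.1 + B * z.2 + C| := by
  rcases lt_or_gt_of_ne hA with hA' | hA'
  · have e1 : |(A : ℝ)| = ((-A : ℤ) : ℝ) := by
      push_cast
      exact abs_of_neg (by exact_mod_cast hA')
    have e2 : bb B = bb (-B) := by unfold bb; push_cast; rw [abs_neg]
    have e3 : |A * z.1 + B * z.2 + C| =
        |((-A : ℤ) : ℝ) * z.1 + ((-B : ℤ) : ℝ) * z.2 + ((-C : ℤ) : ℝ)| := by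
      push_cast
      rw [← abs_neg]; congr 1; ring
    rw [e1, e2] at hl hl' hk
    rw [e1, e2, e3]
    refine h.avoidD hR hz (-C) (by omega) ?_ hl hl' hk
    rw [abs_neg, ← abs_of_neg hA']; exact hB
  · have e1 : |(A : ℝ)| = (A : ℝ) := abs_of_pos (by exact_mod_cast hA')
    rw [e1] at hl hl' hk
    rw [e1]
    refine h.avoidD hR hz C (by omega) ?_ hl hl' hk
    rw [← abs_of_pos hA']; rwa [abs_of_pos hA'] at hB ⊢

lemma abs_sub_le_of_mem {k : ℕ} {i : ℤ × ℤ} {z z' : ℝ × ℝ} (hz : z ∈ Sq R k i)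
    (hz' : z' ∈ Sq R k i) :
    |z.1 - z'.1| ≤ ((R : ℝ)⁻¹) ^ k ∧ |z.2 - z'.2| ≤ ((R : ℝ)⁻¹) ^ k := by
  rw [mem_Sq] at hz hz'
  obtain ⟨⟨h1, h2⟩, h3, h4⟩ := hz
  obtain ⟨⟨g1, g2⟩, g3, g4⟩ := hz'
  constructor <;> rw [abs_le] <;> constructor <;> nlinarith

lemma Good.uniqP (hR : 64 ≤ R) (hN : 8 ≤ N) {k : ℕ} {i : ℤ × ℤ} (h : Good R N k i) {j l : ℕ}
    (hj : j ≤ k) {q q' : ℕ} {p₁ p₂ p₁' p₂' : ℤ} {z z' : ℝ × ℝ}
    (hq : ClP ((R : ℝ)⁻¹) N j l q) (hq' : ClP ((R : ℝ)⁻¹) N j l q')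
    (hz : z ∈ Sq R k i) (hz' : z' ∈ Sq R k i)
    (hb : BadP ((R : ℝ)⁻¹) N j l q p₁ p₂ z) (hb' : BadP ((R : ℝ)⁻¹) N j l q' p₁' p₂' z') :
    (q : ℤ) * p₁' = q' * p₁ := by
  have h0 := r_pos hR
  have h1 := r_lt_one hR
  have h64 := r_lt hR
  obtain ⟨hd1, hd2⟩ := abs_sub_le_of_mem hz hz'
  obtain ⟨hq1, hq2, hq3⟩ := hq
  obtain ⟨hq1', hq2', hq3'⟩ := hq'
  obtain ⟨b1, b2⟩ := hb
  obtain ⟨b1', b2'⟩ := hb'
  set r := (R : ℝ)⁻¹ with hr
  set u := r ^ j with hu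
  set T := r ^ tP N l with hT
  set Λ := r ^ (N * l) with hΛ
  have hu0 : 0 < u := by positivity
  have hT0 : 0 < T := by positivity
  have hΛ0 : 0 < Λ := by positivity
  have hΛ1 : Λ ≤ 1 := pow_le_one₀ h0.le h1.le
  have hT1 : T ≤ 1 := pow_le_one₀ h0.le h1.le
  have hku : r ^ k ≤ u := (pow_le_pow_r h0 h1).2 hj
  have hju : r ^ (j + 4 + l) ≤ u := (pow_le_pow_r h0 h1).2 (by omega)
  set s := √(q : ℝ) with hs
  set s' := √(q' : ℝ) with hs'
  have hqr : (1 : ℝ) ≤ q := by exact_mod_cast hq1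
  have hqr' : (1 : ℝ) ≤ q' := by exact_mod_cast hq1'
  have hs2 : s ^ 2 = q := Real.sq_sqrt (by linarith)
  have hs2' : s' ^ 2 = q' := Real.sq_sqrt (by linarith)
  have hs0 : 0 < s := Real.sqrt_pos.2 (by linarith)
  have hs0' : 0 < s' := Real.sqrt_pos.2 (by linarith)
  have ec : (q : ℝ) * s = s ^ 3 := by rw [← hs2]; ring
  have ec' : (q' : ℝ) * s' = s' ^ 3 := by rw [← hs2']; ring
  rw [ec] at hq2 hq3
  rw [ec'] at hq2' hq3'
  have e4 : r ^ (tP N l + 1) = r * T := by rw [hT, pow_succ]; ring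
  rw [e4] at hq3 hq3'
  -- the coordinates
  have hX : |(q : ℝ) * z.1 - p₁| ≤ s ^ 2 * u := by
    rw [hs2]
    refine b1.trans (mul_le_mul_of_nonneg_left hju (by linarith))
  have hX' : |(q' : ℝ) * z.1 - p₁'| ≤ 2 * s' ^ 2 * u := by
    rw [hs2']
    have e : (q' : ℝ) * z.1 - p₁' = (q' * z'.1 - p₁') + q' * (z.1 - z'.1) := by ring
    rw [e]
    refine (abs_add_le _ _).trans ?_
    rw [abs_mul, abs_of_pos (by linarith : (0 : ℝ) < q')]
    have g1 : (q' : ℝ) * r ^ (j + 4 + l) ≤ q' * u := mul_le_mul_of_nonneg_left hju (by linarith)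
    have g2 : (q' : ℝ) * |z.1 - z'.1| ≤ q' * u :=
      mul_le_mul_of_nonneg_left (hd1.trans hku) (by linarith)
    linarith
  have hY' : |(q' : ℝ) * z.2 - p₂'| * s' * Λ ≤ 2 := by
    have e : (q' : ℝ) * z.2 - p₂' = (q' * z'.2 - p₂') + q' * (z.2 - z'.2) := by ring
    have g0 : |(q' : ℝ) * z.2 - p₂'| ≤ |(q' : ℝ) * z'.2 - p₂'| + q' * u := by
      rw [e]
      refine (abs_add_le _ _).trans ?_
      rw [abs_mul, abs_of_pos (by linarith : (0 : ℝ) < q')]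
      have g2 : (q' : ℝ) * |z.2 - z'.2| ≤ q' * u :=
        mul_le_mul_of_nonneg_left (hd2.trans hku) (by linarith)
      linarith
    calc |(q' : ℝ) * z.2 - p₂'| * s' * Λ ≤ (|(q' : ℝ) * z'.2 - p₂'| + q' * u) * s' * Λ := by gcongr
      _ = |(q' : ℝ) * z'.2 - p₂'| * s' * Λ + (u * s' ^ 3) * Λ := by rw [← ec']; ring
      _ ≤ 1 + T * 1 := by gcongr
      _ ≤ 2 := by linarith
  by_contra hne
  set A : ℤ := q' * p₂ - q * p₂' with hA
  set B : ℤ := q * p₁' - q' * p₁ with hB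
  set C : ℤ := p₁ * p₂' - p₁' * p₂ with hC
  have hB0 : B ≠ 0 := by
    intro h'; apply hne; rw [hB] at h'; linarith
  have eA : (A : ℝ) = s ^ 2 * ((q' : ℝ) * z.2 - p₂') - s' ^ 2 * ((q : ℝ) * z.2 - p₂) := by
    rw [hs2, hs2', hA]; push_cast; ring
  have eB : (B : ℝ) = s' ^ 2 * ((q : ℝ) * z.1 - p₁) - s ^ 2 * ((q' : ℝ) * z.1 - p₁') := by
    rw [hs2, hs2', hB]; push_cast; ring
  have eC : (A : ℝ) * z.1 + B * z.2 + C = ((q : ℝ) * z.1 - p₁) * ((q' : ℝ) * z.2 - p₂') -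
      ((q' : ℝ) * z.1 - p₁') * ((q : ℝ) * z.2 - p₂) := by
    rw [hA, hB, hC]; push_cast; ring
  obtain ⟨⟨V1, V2⟩, ⟨V3, V4⟩, H1, H2⟩ := uniqP_core (r := r) hs0 hs0' hu0 hT0 hΛ0 h0 hX b2 hX' hY'
    hq2.le hq2'.le hq3 hq3' (congrArg abs eA) (congrArg abs eB) (congrArg abs eC)
  have hBabs : (1 : ℝ) ≤ |(B : ℝ)| := by
    have : (1 : ℤ) ≤ |B| := Int.one_le_abs hB0
    exact_mod_cast this
  rcases le_or_gt |B| |A| with hAB | hAB
  · -- steep line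
    have hA0 : A ≠ 0 := by
      rintro hA0
      rw [hA0, abs_zero] at hAB
      exact hB0 (abs_nonpos_iff.1 hAB)
    have hbb : bb B = |(B : ℝ)| := by unfold bb; exact max_eq_right hBabs
    have hABr : |(B : ℝ)| ≤ |(A : ℝ)| := by exact_mod_cast hAB
    obtain ⟨m, hm1, hm2⟩ := exists_shape (N := N) hR (by omega) (bb_one_le B) (hbb ▸ hABr)
    set a := |(A : ℝ)| with ha
    set b := |(B : ℝ)| with hb
    set ℓ := |(A : ℝ) * z.1 + B * z.2 + C| with hℓ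
    set ψ := r ^ (tD N m + m + 5) with hψ
    have hψ0 : 0 < ψ := by positivity
    have ha0 : 0 < a := by linarith
    have hℓ0 : 0 ≤ ℓ := abs_nonneg _
    set Γ := r ^ (2 * N * m) with hΓ
    have hΓ0 : 0 < Γ := by positivity
    rw [hbb] at hm1 hm2
    have claim : a * b * ℓ ≤ ψ ∧ a ^ 2 * b * u ≤ ψ := by
      rcases regime hN l m with hreg | hreg
      · have g : 64 * T ^ 2 ≤ ψ * Λ ^ 2 := by
          have e : ψ * Λ ^ 2 = r ^ ((tD N m + m + 5) + 2 * (N * l)) := by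
            rw [hψ, hΛ, ← pow_mul, ← pow_add]; congr 1; ring
          have e' : T ^ 2 = r ^ (2 * tP N l) := by rw [hT, ← pow_mul]; congr 1; ring
          rw [e, e']
          calc 64 * r ^ (2 * tP N l) ≤ 64 * r ^ ((tD N m + m + 5) + 2 * (N * l) + 1) := by
                have := (pow_le_pow_r h0 h1).2 hreg
                linarith
            _ = (64 * r) * r ^ ((tD N m + m + 5) + 2 * (N * l)) := by rw [pow_succ]; ring
            _ ≤ 1 * r ^ ((tD N m + m + 5) + 2 * (N * l)) := by gcongr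
            _ = _ := one_mul _
        have hΛ2 : 0 < Λ ^ 2 := by positivity
        exact ⟨le_of_mul_le_mul_right (V1.trans g) hΛ2, le_of_mul_le_mul_right (V2.trans g) hΛ2⟩
      · have g : 64 * T * Γ ≤ ψ * (Λ ^ 3 * r ^ 2) := by
          have e : ψ * (Λ ^ 3 * r ^ 2) = r ^ ((tD N m + m + 5) + 3 * (N * l) + 2) := by
            rw [hψ, hΛ, ← pow_mul, ← pow_add, ← pow_add]; congr 1; ring
          have e' : T * Γ = r ^ (tP N l + 2 * N * m) := by rw [hT, hΓ, ← pow_add]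
          rw [e, mul_assoc, e']
          calc 64 * r ^ (tP N l + 2 * N * m)
              ≤ 64 * r ^ ((tD N m + m + 5) + 3 * (N * l) + 3) := by
                have := (pow_le_pow_r h0 h1).2 hreg
                linarith
            _ = (64 * r) * r ^ ((tD N m + m + 5) + 3 * (N * l) + 2) := by
                rw [pow_succ _ ((tD N m + m + 5) + 3 * (N * l) + 2)]; ring
            _ ≤ 1 * r ^ ((tD N m + m + 5) + 3 * (N * l) + 2) := by gcongr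
            _ = _ := one_mul _
        have hΛ2 : 0 < Λ ^ 3 * r ^ 2 := by positivity
        constructor
        · refine le_of_mul_le_mul_right (le_trans ?_ g) hΛ2
          calc a * b * ℓ * (Λ ^ 3 * r ^ 2) ≤ a * (a * Γ) * ℓ * (Λ ^ 3 * r ^ 2) := by gcongr
            _ = (a ^ 2 * ℓ * Λ ^ 3 * r ^ 2) * Γ := by ring
            _ ≤ (64 * T) * Γ := by gcongr
        · refine le_of_mul_le_mul_right (le_trans ?_ g) hΛ2
          calc a ^ 2 * b * u * (Λ ^ 3 * r ^ 2) ≤ a ^ 2 * (a * Γ) * u * (Λ ^ 3 * r ^ 2) := by gcongr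
            _ = (a ^ 3 * u * Λ ^ 3 * r ^ 2) * Γ := by ring
            _ ≤ (64 * T) * Γ := by gcongr
    have hk : r ^ k * (a ^ 2 * bb B) ≤ ψ := by
      rw [hbb]
      calc r ^ k * (a ^ 2 * b) ≤ u * (a ^ 2 * b) := by gcongr
        _ = a ^ 2 * b * u := by ring
        _ ≤ ψ := claim.2
    have := h.avoidD_abs hR hz C hA0 hAB (l := m) (by rw [hbb]; exact hm1)
      (by rw [hbb]; exact hm2) hk
    rw [hbb] at this
    exact absurd claim.1 (not_le.2 this)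
  · -- flat line
    have hABr : |(A : ℝ)| < |(B : ℝ)| := by exact_mod_cast hAB
    have hbbB : bb A ≤ |(B : ℝ)| := max_le hBabs hABr.le
    obtain ⟨m, hm1, hm2⟩ := exists_shape (N := N) hR (by omega) (bb_one_le A) hbbB
    set a := |(A : ℝ)| with ha
    set b := |(B : ℝ)| with hb
    set ℓ := |(A : ℝ) * z.1 + B * z.2 + C| with hℓ
    set ψ := r ^ (tD N m + m + 5) with hψ
    have hψ0 : 0 < ψ := by positivity
    have hb0 : 0 < b := by linarith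
    have hℓ0 : 0 ≤ ℓ := abs_nonneg _
    have hbA := bb_one_le A
    set Γ := r ^ (2 * N * m) with hΓ
    have hΓ0 : 0 < Γ := by positivity
    have hψm : tD N m + m + 5 ≤ 6 * N + 33 + 5 * m := by unfold tD; omega
    have c1 : b * bb A * ℓ ≤ ψ := by
      have g : 64 * T ^ 3 * Γ ≤ ψ * Λ := by
        have e : ψ * Λ = r ^ ((tD N m + m + 5) + N * l) := by
          rw [hψ, hΛ, ← pow_add]
        have e' : T ^ 3 * Γ = r ^ (3 * tP N l + 2 * N * m) := by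
          rw [hT, hΓ, ← pow_mul, ← pow_add]; congr 1; ring
        rw [e, mul_assoc, e']
        calc 64 * r ^ (3 * tP N l + 2 * N * m)
            ≤ 64 * r ^ ((tD N m + m + 5) + N * l + 1) := by
              have : (tD N m + m + 5) + N * l + 1 ≤ 3 * tP N l + 2 * N * m := by
                have t1 : 8 * m ≤ N * m := Nat.mul_le_mul_right m hN
                have t2 : (N + 3) * l = N * l + 3 * l := by ring
                have t3 : 2 * N * m = 2 * (N * m) := by ring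
                unfold tD tP; rw [t2, t3]; omega
              have := (pow_le_pow_r h0 h1).2 this
              linarith
          _ = (64 * r) * r ^ ((tD N m + m + 5) + N * l) := by
              rw [pow_succ _ ((tD N m + m + 5) + N * l)]; ring
          _ ≤ 1 * r ^ ((tD N m + m + 5) + N * l) := by gcongr
          _ = _ := one_mul _
      refine le_of_mul_le_mul_right (le_trans ?_ g) hΛ0
      calc b * bb A * ℓ * Λ ≤ b * (b * Γ) * ℓ * Λ := by gcongr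
        _ = (b ^ 2 * ℓ * Λ) * Γ := by ring
        _ ≤ (64 * T ^ 3) * Γ := by gcongr
    have c2 : r ^ k * (b ^ 2 * bb A) ≤ ψ := by
      have g : 64 * T ^ 4 * Γ ≤ ψ := by
        have e' : T ^ 4 * Γ = r ^ (4 * tP N l + 2 * N * m) := by
          rw [hT, hΓ, ← pow_mul, ← pow_add]; congr 1; ring
        rw [mul_assoc, e']
        calc 64 * r ^ (4 * tP N l + 2 * N * m)
            ≤ 64 * r ^ ((tD N m + m + 5) + 1) := by
              have : (tD N m + m + 5) + 1 ≤ 4 * tP N l + 2 * N * m := by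
                have t1 : 8 * m ≤ N * m := Nat.mul_le_mul_right m hN
                have t2 : (N + 3) * l = N * l + 3 * l := by ring
                have t3 : 2 * N * m = 2 * (N * m) := by ring
                unfold tD tP; rw [t2, t3]; omega
              have := (pow_le_pow_r h0 h1).2 this
              linarith
          _ = (64 * r) * r ^ (tD N m + m + 5) := by
              rw [pow_succ _ (tD N m + m + 5)]; ring
          _ ≤ 1 * r ^ (tD N m + m + 5) := by gcongr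
          _ = _ := one_mul _
      calc r ^ k * (b ^ 2 * bb A) ≤ u * (b ^ 2 * (b * Γ)) := by gcongr
        _ = (b ^ 3 * u) * Γ := by ring
        _ ≤ (64 * T ^ 4) * Γ := by gcongr
        _ ≤ ψ := g
    have := h.swap.avoidD_abs hR (mem_Sq_swap.2 hz) C hB0 hAB.le (l := m) hm1 hm2 c2
    simp only [Prod.fst_swap, Prod.snd_swap] at this
    have e : |(B : ℝ) * z.2 + A * z.1 + C| = ℓ := by rw [hℓ]; congr 1; ring
    rw [e] at this
    exact absurd c1 (not_le.2 this)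

end Pool.Agent.H389R2.Bs
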